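import Pool.Agent.K7.H32.SB.Inf

/-!
# The Burau action at `t = -1` on integer sequences, and the infinite family
-/

set_option autoImplicit false

namespace Pool.Agent.K7.H32.SB

/-- integer sequences -/
abbrev V : Type := ℕ → ℤ

/-- the generator acts by `(v_i, v_{i+1}) ↦ (2 v_i - v_{i+1}, v_i)` -/
def fw (i : ℕ) (v : V) : V := fun j =>
  if j = i then 2 * v i - v (i + 1) else if j = i + 1 then v i else v j

/-- the inverse: `(v_i, v_{i+1}) ↦ (v_{i+1}, 2 v_{i+1} - v_i)` -/
def bw (i : ℕ) (v : V) : V := fun j =>
  if j = i then v (i + 1) else if j = i + 1 then 2 * v (i + 1) - v i else v j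

theorem bw_fw (i : ℕ) (v : V) : bw i (fw i v) = v := by
  funext j
  simp only [bw, fw]
  split_ifs <;> simp_all <;> omega

theorem fw_bw (i : ℕ) (v : V) : fw i (bw i v) = v := by
  funext j
  simp only [bw, fw]
  split_ifs <;> simp_all <;> omega

/-- the generator as a permutation of the set of sequences -/
def S (i : ℕ) : Equiv.Perm V where
  toFun := fw i
  invFun := bw i
  left_inv := bw_fw i
  right_inv := fw_bw i

theorem S_apply (i : ℕ) (v : V) : S i v = fw i v := rfl

theorem S_inv_apply (i : ℕ) (v : V) : (S i)⁻¹ v = bw i v := rfl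

theorem S_comm (i j : ℕ) (h : i + 2 ≤ j) : S i * S j = S j * S i := by
  ext v k
  simp only [Equiv.Perm.mul_apply, S_apply, fw]
  have h1 : j ≠ i := by omega
  have h2 : j ≠ i + 1 := by omega
  have h3 : j + 1 ≠ i := by omega
  have h4 : j ≠ i := by omega
  split_ifs <;> first | rfl | omega

theorem S_braid (i : ℕ) : S i * S (i + 1) * S i = S (i + 1) * S i * S (i + 1) := by
  ext v k
  simp only [Equiv.Perm.mul_apply, S_apply, fw]
  split_ifs <;> first | rfl | omega | (ring_nf)

/-- the action -/
def Phi : Binf →* Equiv.Perm V := mkHom S S_comm S_braid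

@[simp] theorem Phi_s (i : ℕ) : Phi (s i) = S i := mkHom_s _ _ _ _

/-- the exponent sum -/
def ex : Binf →* Multiplicative ℤ :=
  mkHom (fun _ => Multiplicative.ofAdd 1) (fun _ _ _ => rfl) (fun _ => rfl)

@[simp] theorem ex_s (i : ℕ) : ex (s i) = Multiplicative.ofAdd 1 := mkHom_s _ _ _ _

/-! ### The shift on permutations -/

/-- prepend a value to a sequence -/
def cons (x : ℤ) (v : V) : V := fun j => Nat.casesOn j x v

@[simp] theorem cons_zero (x : ℤ) (v : V) : cons x v 0 = x := rfl
@[simp] theorem cons_succ (x : ℤ) (v : V) (j : ℕ) : cons x v (j + 1) = v j := rfl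

/-- drop the first entry -/
def tl (v : V) : V := fun j => v (j + 1)

@[simp] theorem tl_cons (x : ℤ) (v : V) : tl (cons x v) = v := rfl

@[simp] theorem cons_tl (v : V) : cons (v 0) (tl v) = v := by
  funext j; cases j <;> rfl

/-- the shift of a permutation -/
def shE : Equiv.Perm V →* Equiv.Perm V where
  toFun P :=
    { toFun := fun v => cons (v 0) (P (tl v))
      invFun := fun v => cons (v 0) (P.symm (tl v))
      left_inv := fun v => by simp
      right_inv := fun v => by simp }
  map_one' := by ext v j; simp
  map_mul' P Q := by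
    apply Equiv.ext
    intro v
    change cons (v 0) ((P * Q) (tl v)) = cons ((cons (v 0) (Q (tl v))) 0) (P (tl (cons (v 0) (Q (tl v)))))
    simp

theorem shE_apply (P : Equiv.Perm V) (v : V) : shE P v = cons (v 0) (P (tl v)) := rfl

theorem Phi_sh (g : Binf) : Phi (sh g) = shE (Phi g) := by
  have h : Phi.comp sh = shE.comp Phi := by
    refine hom_ext fun i => ?_
    simp only [MonoidHom.comp_apply, sh_s, Phi_s]
    apply Equiv.ext
    intro v
    rw [shE_apply, S_apply, S_apply]
    funext j
    cases j with
    | zero => simp [fw]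
    | succ j =>
      simp only [fw, cons_succ, tl]
      split_ifs <;> first | rfl | omega
  exact DFunLike.congr_fun h g

theorem ex_sh (g : Binf) : ex (sh g) = ex g := by
  have h : ex.comp sh = ex := by
    refine hom_ext fun i => ?_
    simp
  exact DFunLike.congr_fun h g

/-! ### Powers of the generators -/

theorem S_pow (i n : ℕ) (v : V) (j : ℕ) : (S i ^ n) v j =
    if j = i then (n + 1) * v i - n * v (i + 1) else
      if j = i + 1 then n * v i + (1 - n) * v (i + 1) else v j := by
  induction n generalizing v j with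
  | zero => simp only [pow_zero, Equiv.Perm.one_apply]; split_ifs <;> simp_all
  | succ n ih =>
    rw [pow_succ, Equiv.Perm.mul_apply, ih, S_apply]
    simp only [fw]
    push_cast
    split_ifs <;> first | omega | ring | (ring_nf) | simp_all

theorem S_inv_pow (i n : ℕ) (v : V) (j : ℕ) : (S i ^ n)⁻¹ v j =
    if j = i then (1 - n) * v i + n * v (i + 1) else
      if j = i + 1 then (n + 1) * v (i + 1) - n * v i else v j := by
  rw [← inv_pow]
  induction n generalizing v j with
  | zero => simp only [pow_zero, Equiv.Perm.one_apply]; split_ifs <;> simp_all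
  | succ n ih =>
    rw [pow_succ, Equiv.Perm.mul_apply, ih, S_inv_apply]
    simp only [bw]
    push_cast
    split_ifs <;> first | omega | ring | (ring_nf) | simp_all

end Pool.Agent.K7.H32.SB
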