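import Pool.Agent.K7.H32.SB.Act

/-!
# Special braids whose image is supported on at most three coordinates
-/

set_option autoImplicit false

namespace Pool.Agent.K7.H32.SB

/-- compatibility with `v ↦ c - v` -/
def Aff (P : Equiv.Perm V) : Prop := ∀ (c : ℤ) (v : V), P (fun i => c - v i) = fun i => c - P v i

theorem Aff_one : Aff 1 := fun _ _ => rfl

theorem Aff_mul {P Q : Equiv.Perm V} (hP : Aff P) (hQ : Aff Q) : Aff (P * Q) := by
  intro c v
  rw [Equiv.Perm.mul_apply, hQ, hP, Equiv.Perm.mul_apply]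

theorem Aff_inv {P : Equiv.Perm V} (hP : Aff P) : Aff P⁻¹ := by
  intro c v
  apply P.injective
  rw [show P (P⁻¹ (fun i => c - v i)) = fun i => c - v i from P.apply_symm_apply _, hP,
    show P (P⁻¹ v) = v from P.apply_symm_apply _]

theorem Aff_S (i : ℕ) : Aff (S i) := by
  intro c v
  funext j
  simp only [S_apply, fw]
  split_ifs <;> ring

theorem Aff_Phi (g : Binf) : Aff (Phi g) := by
  have hg : g ∈ Subgroup.closure (Set.range (PresentedGroup.of (rels := Rels))) := by
    rw [PresentedGroup.closure_range_of]; trivial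
  induction hg using Subgroup.closure_induction with
  | mem x hx =>
    obtain ⟨i, rfl⟩ := hx
    have : Phi (PresentedGroup.of i) = S i := Phi_s i
    rw [this]; exact Aff_S i
  | one => rw [map_one]; exact Aff_one
  | mul x y _ _ hx hy => rw [map_mul]; exact Aff_mul hx hy
  | inv x _ hx => rw [map_inv]; exact Aff_inv hx

theorem Aff_zero {P : Equiv.Perm V} (hP : Aff P) : P (fun _ => 0) = fun _ => 0 := by
  have h := hP 0 (fun _ => 0)
  funext i
  have h2 := congrFun h i
  simp only [sub_zero, zero_sub] at h2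
  omega

/-- the infinite family is injective -/
theorem Phi_y (k : ℕ) : Phi (y k) (cons 1 (fun _ => 0)) 3 = ((k : ℤ) + 2) ^ 2 + 1 := by
  have h1 : (shE (Phi (rho k)))⁻¹ (cons 1 (fun _ => 0)) = cons 1 (fun _ => 0) := by
    rw [Equiv.Perm.inv_eq_iff_eq, shE_apply, tl_cons, Aff_zero (Aff_Phi _)]
    rfl
  rw [y_eq, map_mul, map_mul, map_inv, Phi_sh, Equiv.Perm.mul_apply, h1, Equiv.Perm.mul_apply,
    rho_eq]
  simp only [map_mul, map_inv, map_pow, Phi_s, Equiv.Perm.mul_apply, S_pow, S_inv_pow, S_apply,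
    S_inv_apply, fw, bw]
  norm_num [cons]
  ring

theorem y_injective : Function.Injective y := by
  intro k l h
  have h1 := Phi_y k
  rw [h, Phi_y l] at h1
  have h2 : ((l : ℤ) + 2) ^ 2 = ((k : ℤ) + 2) ^ 2 := by linarith
  have h3 : (l : ℤ) + 2 = (k : ℤ) + 2 := by
    have := (pow_left_inj₀ (by positivity) (by positivity) (by norm_num)).1 h2
    exact this
  omega

/-- supported on the first `a` coordinates -/
def InG (a : ℕ) (P : Equiv.Perm V) : Prop :=
  (∀ v i, a ≤ i → P v i = v i) ∧
    (∀ v w : V, (∀ i < a, v i = w i) → ∀ i < a, P v i = P w i)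

theorem InG_mono {a b : ℕ} (h : a ≤ b) {P : Equiv.Perm V} (hP : InG a P) : InG b P := by
  refine ⟨fun v i hi => hP.1 v i (by omega), fun v w hvw i hi => ?_⟩
  by_cases hia : i < a
  · exact hP.2 v w (fun j hj => hvw j (by omega)) i hia
  · rw [hP.1 v i (by omega), hP.1 w i (by omega)]
    exact hvw i hi

theorem InG_one (a : ℕ) : InG a 1 := ⟨fun _ _ _ => rfl, fun _ _ h i hi => h i hi⟩

theorem InG_mul {a : ℕ} {P Q : Equiv.Perm V} (hP : InG a P) (hQ : InG a Q) : InG a (P * Q) := by
  refine ⟨fun v i hi => ?_, fun v w hvw i hi => ?_⟩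
  · rw [Equiv.Perm.mul_apply, hP.1 _ i hi, hQ.1 _ i hi]
  · rw [Equiv.Perm.mul_apply, Equiv.Perm.mul_apply]
    exact hP.2 _ _ (fun j hj => hQ.2 v w hvw j hj) i hi

theorem InG_inv {a : ℕ} {P : Equiv.Perm V} (hP : InG a P) : InG a P⁻¹ := by
  have key : ∀ v i, a ≤ i → P⁻¹ v i = v i := by
    intro v i hi
    have h := hP.1 (P⁻¹ v) i hi
    rw [show P (P⁻¹ v) = v from P.apply_symm_apply _] at h
    exact h.symm
  refine ⟨key, fun v w hvw i hi => ?_⟩
  have h : P⁻¹ v = fun j => if j < a then P⁻¹ w j else P⁻¹ v j := by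
    rw [Equiv.Perm.inv_eq_iff_eq]
    funext j
    by_cases hj : j < a
    · rw [hP.2 (fun j => if j < a then P⁻¹ w j else P⁻¹ v j) (P⁻¹ w)
        (fun k hk => by simp [hk]) j hj, show P (P⁻¹ w) = w from P.apply_symm_apply _]
      exact hvw j hj
    · rw [hP.1 _ j (by omega)]
      simp only [if_neg hj]
      exact (key v j (by omega)).symm
  rw [h]
  simp [hi]

theorem InG_S {i n : ℕ} (h : i + 1 < n) : InG n (S i) := by
  refine ⟨fun v j hj => ?_, fun v w hvw j hj => ?_⟩
  · simp only [S_apply, fw]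
    rw [if_neg (by omega), if_neg (by omega)]
  · simp only [S_apply, fw]
    rw [hvw i (by omega), hvw (i + 1) (by omega), hvw j hj]

theorem InG_Phi {n : ℕ} {g : Binf} (h : g ∈ B n) : InG n (Phi g) := by
  unfold B at h
  induction h using Subgroup.closure_induction with
  | mem x hx =>
    obtain ⟨i, hi, rfl⟩ := hx
    rw [Phi_s]; exact InG_S hi
  | one => rw [map_one]; exact InG_one n
  | mul x y _ _ hx hy => rw [map_mul]; exact InG_mul hx hy
  | inv x _ hx => rw [map_inv]; exact InG_inv hx

theorem InG_unsh {a : ℕ} {P : Equiv.Perm V} (h : InG a (shE P)) : InG (a - 1) P := by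
  refine ⟨fun v i hi => ?_, fun v w hvw i hi => ?_⟩
  · have := h.1 (cons 0 v) (i + 1) (by omega)
    simpa [shE_apply] using this
  · have := h.2 (cons 0 v) (cons 0 w) (by
      intro j hj
      cases j with
      | zero => rfl
      | succ j => exact hvw j (by omega)) (i + 1) (by omega)
    simpa [shE_apply] using this

theorem T_apply (k : ℕ) (v : V) (i : ℕ) : Phi (tau k) v i =
    if i < k then 2 * v 0 - v (i + 1) else if i = k then v 0 else v i := by
  induction k generalizing i with
  | zero =>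
    rw [tau, map_one, Equiv.Perm.one_apply]
    split_ifs <;> simp_all
  | succ k ih =>
    rw [tau, map_mul, Phi_s, Equiv.Perm.mul_apply, S_apply]
    simp only [fw, ih]
    split_ifs <;> first | omega | rfl | simp_all

theorem InG_T (k : ℕ) : InG (k + 1) (Phi (tau k)) := by
  apply InG_Phi
  induction k with
  | zero => exact one_mem _
  | succ k ih => exact mul_mem (s_mem (by omega)) (B_mono (by omega) ih)

theorem T_not_InG {k n : ℕ} (hn : 1 ≤ n) (h : InG n (Phi (tau k))) : k < n := by
  by_contra hk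
  push Not at hk
  have h1 := h.1 (fun i => (i : ℤ)) k hk
  rw [T_apply, if_neg (by omega), if_pos rfl] at h1
  push_cast at h1
  omega

theorem comm_T {k : ℕ} {P : Equiv.Perm V} (hA : Aff P) (h : InG k P) :
    P * Phi (tau k) = Phi (tau k) * shE P := by
  apply Equiv.ext
  intro v
  funext i
  rw [Equiv.Perm.mul_apply, Equiv.Perm.mul_apply, T_apply, shE_apply]
  by_cases hi : i < k
  · rw [if_pos hi, cons_zero, cons_succ,
      h.2 (Phi (tau k) v) (fun j => 2 * v 0 - tl v j) (fun j hj => by rw [T_apply, if_pos hj]; rfl) i hi,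
      hA]
  · rw [if_neg hi, h.1 _ i (by omega), T_apply, if_neg hi, cons_zero]
    by_cases hik : i = k
    · rw [if_pos hik, if_pos hik]
    · rw [if_neg hik, if_neg hik]
      obtain ⟨j, rfl⟩ : ∃ j, i = j + 1 := ⟨i - 1, by omega⟩
      rw [cons_succ, h.1 _ j (by omega)]
      rfl

theorem one_of_InG_one {P : Equiv.Perm V} (hA : Aff P) (h : InG 1 P) : P = 1 := by
  apply Equiv.ext
  intro v
  funext i
  rw [Equiv.Perm.one_apply]
  cases i with
  | succ i => exact h.1 v (i + 1) (by omega)
  | zero =>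
    have h1 : P v 0 = P (fun _ => v 0 - 0) 0 :=
      h.2 v (fun _ => v 0 - 0) (fun j hj => by
        have : j = 0 := by omega
        subst this; simp) 0 (by omega)
    rw [h1, hA (v 0) (fun _ => 0), Aff_zero hA]
    simp

theorem Phi_comb (l : List Binf) :
    Phi (comb l) = Phi (pr l) * Phi (tau l.length) * (shE (Phi (pr l)))⁻¹ := by
  rw [comb_eq, map_mul, map_mul, map_inv, Phi_sh]

theorem dich (l : List Binf) {n : ℕ} (h : InG n (Phi (comb l))) :
    (Phi (comb l) = Phi (tau l.length)) ∨
      (InG (n - 1) (Phi (pr l)) ∧ ¬ InG l.length (Phi (pr l))) := by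
  classical
  by_cases hk : InG l.length (Phi (pr l))
  · left
    rw [Phi_comb, comm_T (Aff_Phi _) hk, mul_inv_cancel_right]
  · right
    refine ⟨?_, hk⟩
    have hex : ∃ a, InG a (Phi (pr l)) := by
      obtain ⟨a, ha⟩ := exists_mem (pr l)
      exact ⟨a, InG_Phi ha⟩
    obtain ⟨a, ha, hmin⟩ : ∃ a, InG a (Phi (pr l)) ∧ ∀ b < a, ¬ InG b (Phi (pr l)) :=
      ⟨Nat.find hex, Nat.find_spec hex, fun b hb => Nat.find_min hex hb⟩
    have hka : l.length < a := by
      by_contra hc
      exact hk (InG_mono (by omega) ha)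
    by_cases han : a ≤ n - 1
    · exact InG_mono han ha
    · exfalso
      have h1 : shE (Phi (pr l)) = (Phi (comb l))⁻¹ * (Phi (pr l) * Phi (tau l.length)) := by
        rw [Phi_comb]; group
      have h2 : InG a (shE (Phi (pr l))) := by
        rw [h1]
        exact InG_mul (InG_inv (InG_mono (by omega) h))
          (InG_mul ha (InG_mono (by omega) (InG_T l.length)))
      exact hmin (a - 1) (by omega) (InG_unsh h2)

theorem ex_tau (k : ℕ) : ex (tau k) = Multiplicative.ofAdd (k : ℤ) := by
  induction k with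
  | zero => simp [tau]
  | succ k ih =>
    rw [tau, map_mul, ih, ex_s, ← ofAdd_add]
    congr 1; push_cast; ring

theorem ex_comb (l : List Binf) : ex (comb l) = Multiplicative.ofAdd (l.length : ℤ) := by
  rw [comb_eq, map_mul, map_mul, map_inv, ex_sh, ex_tau, mul_comm (ex (pr l)), mul_assoc,
    mul_inv_cancel, mul_one]

theorem tau_zero : tau 0 = 1 := rfl

theorem class2 {x : Binf} (hx : Special x) (h : InG 2 (Phi x)) :
    Phi x = 1 ∨ Phi x = Phi (tau 1) := by
  obtain ⟨l, -, rfl⟩ := special_comb hx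
  cases l with
  | nil => left; simp [comb]
  | cons x l =>
    right
    have hT : Phi (comb (x :: l)) = Phi (tau (x :: l).length) := by
      rcases dich _ h with h1 | ⟨h1, h2⟩
      · exact h1
      · exfalso
        apply h2
        have h3 := one_of_InG_one (Aff_Phi _) h1
        rw [h3]; exact InG_one _
    have hk : (x :: l).length < 2 := T_not_InG (by norm_num) (by rw [← hT]; exact h)
    have hl : (x :: l).length = 1 := by
      simp only [List.length_cons] at hk ⊢; omega
    rw [hT, hl]

theorem class3 {z : Binf} (hz : Special z) (h : InG 3 (Phi z)) :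
    ∃ w : Binf, (w = 1 ∨ w = s 0 ∨ w = s 1 * s 0 ∨ w = s 0 * s 0 * (s 1)⁻¹) ∧
      Phi z = Phi w ∧ ex z = ex w := by
  obtain ⟨l, hl, rfl⟩ := special_comb hz
  have key : Phi (comb l) = Phi (tau l.length) →
      ∃ w : Binf, (w = 1 ∨ w = s 0 ∨ w = s 1 * s 0 ∨ w = s 0 * s 0 * (s 1)⁻¹) ∧
      Phi (comb l) = Phi w ∧ ex (comb l) = ex w := by
    intro hT
    have hk : l.length < 3 := T_not_InG (by norm_num) (by rw [← hT]; exact h)
    refine ⟨tau l.length, ?_, hT, ?_⟩
    · obtain h0 | h0 | h0 : l.length = 0 ∨ l.length = 1 ∨ l.length = 2 := by omega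
      · left; rw [h0]; rfl
      · right; left; rw [h0]; simp [tau]
      · right; right; left; rw [h0]; simp [tau]
    · rw [ex_comb, ex_tau]
  rcases dich _ h with h1 | ⟨h1, h2⟩
  · exact key h1
  · -- the length is one
    match l, hl, h, key, h1, h2 with
    | [], _, _, _, _, h2 => exact absurd (by rw [pr, map_one]; exact InG_one _) h2
    | [x], hl, _, _, h1, _ =>
      have hp : pr [x] = x := by simp [pr]
      rw [hp] at h1
      have hx : Special x := hl x (by simp)
      rcases class2 hx h1 with h3 | h3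
      · refine ⟨s 0, Or.inr (Or.inl rfl), ?_, ?_⟩
        · rw [Phi_comb, hp, h3]; simp [tau]
        · rw [ex_comb]; simp
      · refine ⟨s 0 * s 0 * (s 1)⁻¹, Or.inr (Or.inr (Or.inr rfl)), ?_, ?_⟩
        · rw [Phi_comb, hp, h3, ← Phi_sh]
          simp [tau]
        · rw [ex_comb]
          simp
    | x :: x' :: l, _, _, _, h1, h2 =>
      exact absurd (InG_mono (by simp only [List.length_cons]; omega) h1) h2

end Pool.Agent.K7.H32.SB
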