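import Pool.Agent.K7.H32.SB.Defs

/-!
# Comparability of special braids
-/

set_option autoImplicit false

namespace Pool.Agent.K7.H32.SB

/-! ### The self-distributive law -/

theorem s0_s1 : s 0 * s 1 * (s 0)⁻¹ = (s 1)⁻¹ * s 0 * s 1 := by
  have h := s_braid 0
  calc s 0 * s 1 * (s 0)⁻¹ = (s 1)⁻¹ * (s 1 * s 0 * s 1) * (s 0)⁻¹ := by group
    _ = (s 1)⁻¹ * (s 0 * s 1 * s 0) * (s 0)⁻¹ := by rw [h]
    _ = (s 1)⁻¹ * s 0 * s 1 := by group

theorem op_ld (a b c : Binf) : op a (op b c) = op (op a b) (op a c) := by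
  have h1 : (sh (sh a))⁻¹ * s 0 = s 0 * (sh (sh a))⁻¹ := (comm0inv a).symm
  have h2 : s 0 * sh (sh c) = sh (sh c) * s 0 := comm0 c
  have h3 : (sh (sh b))⁻¹ * s 0 = s 0 * (sh (sh b))⁻¹ := (comm0inv b).symm
  have h4 : s 0 * s 1 * s 0 = s 1 * s 0 * s 1 := s_braid 0
  have e1 : op a (op b c) = a * sh b * sh (sh c) * s 1 * s 0 * (sh (sh b))⁻¹ * (sh a)⁻¹ := by
    calc op a (op b c) = a * (sh b * sh (sh c) * s 1 * ((sh (sh b))⁻¹ * s 0)) * (sh a)⁻¹ := by
          simp only [op, map_mul, map_inv, sh_s]; group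
      _ = _ := by rw [h3]; group
  have e2 : op (op a b) (op a c) =
      a * sh b * sh (sh c) * (s 0 * s 1 * s 0 * (s 1)⁻¹) * (sh (sh b))⁻¹ * (sh a)⁻¹ := by
    calc op (op a b) (op a c)
        = a * sh b * (s 0 * sh (sh c)) * s 1 * ((sh (sh a))⁻¹ * s 0) * (sh (sh a)) * (s 1)⁻¹ *
          (sh (sh b))⁻¹ * (sh a)⁻¹ := by
          simp only [op, map_mul, map_inv, sh_s, mul_inv_rev, inv_inv]; group
      _ = _ := by rw [h1, h2]; group
  rw [e1, e2, h4]; group

/-! ### Terms -/

/-- terms in one variable -/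
inductive T : Type
  | o : T
  | m : T → T → T

namespace T

/-- one-step expansions -/
inductive E1 : T → T → Prop
  | ld (a b c : T) : E1 (m a (m b c)) (m (m a b) (m a c))
  | l {a a' : T} (b : T) (h : E1 a a') : E1 (m a b) (m a' b)
  | r (a : T) {b b' : T} (h : E1 b b') : E1 (m a b) (m a b')

/-- expansions -/
def E : T → T → Prop := Relation.ReflTransGen E1

theorem E.refl (a : T) : E a a := Relation.ReflTransGen.refl

theorem E.trans {a b c : T} (h : E a b) (h' : E b c) : E a c := Relation.ReflTransGen.trans h h'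

theorem E1.e {a b : T} (h : E1 a b) : E a b := Relation.ReflTransGen.single h

theorem E.l {a a' : T} (b : T) (h : E a a') : E (m a b) (m a' b) := by
  induction h with
  | refl => exact E.refl _
  | tail _ h ih => exact ih.trans (h.l b).e

theorem E.r (a : T) {b b' : T} (h : E b b') : E (m a b) (m a b') := by
  induction h with
  | refl => exact E.refl _
  | tail _ h ih => exact ih.trans (h.r a).e

theorem E.m {a a' b b' : T} (h : E a a') (h' : E b b') : E (m a b) (m a' b') :=
  (h.l b).trans (h'.r a')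

/-- full distribution -/
def st (a : T) : T → T
  | o => m a o
  | m b c => m (st a b) (st a c)

theorem E_st (a b : T) : E (m a b) (st a b) := by
  induction b with
  | o => exact E.refl _
  | m b c hb hc => exact (E1.ld a b c).e.trans (hb.m hc)

theorem st_left {a a' : T} (h : E a a') (b : T) : E (st a b) (st a' b) := by
  induction b with
  | o => exact h.l o
  | m b c hb hc => exact hb.m hc

theorem st_right1 (a : T) {b b' : T} (h : E1 b b') : E (st a b) (st a b') := by
  induction h with
  | ld x y z => exact (E1.ld _ _ _).e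
  | l b _ ih => exact ih.l _
  | r a _ ih => exact ih.r _

theorem st_right (a : T) {b b' : T} (h : E b b') : E (st a b) (st a b') := by
  induction h with
  | refl => exact E.refl _
  | tail _ h ih => exact ih.trans (st_right1 a h)

theorem st_st (a b c : T) : E (st a (st b c)) (st (st a b) (st a c)) := by
  induction c with
  | o =>
    change E (m (st a b) (m a o)) (m (st (st a b) a) (m (st a b) o))
    exact (E1.ld _ _ _).e.trans ((E_st _ _).l _)
  | m c d hc hd => exact hc.m hd

/-- the derived term -/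
def d : T → T
  | o => o
  | m a b => st (d a) (d b)

theorem E_d (a : T) : E a (d a) := by
  induction a with
  | o => exact E.refl _
  | m a b ha hb => exact (ha.m hb).trans (E_st _ _)

theorem step_d {a b : T} (h : E1 a b) : E b (d a) := by
  induction h with
  | ld a b c =>
    have h1 : E (m (m a b) (m a c)) (m (st (d a) (d b)) (st (d a) (d c))) :=
      (((E_d a).m (E_d b)).trans (E_st _ _)).m (((E_d a).m (E_d c)).trans (E_st _ _))
    exact h1.trans (st_right (d a) (E_st (d b) (d c)))
  | l b _ ih => exact (ih.m (E_d b)).trans (E_st _ _)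
  | r a _ ih => exact ((E_d a).m ih).trans (E_st _ _)

theorem mono1_d {a b : T} (h : E1 a b) : E (d a) (d b) := by
  induction h with
  | ld a b c => exact st_st _ _ _
  | l b _ ih => exact st_left ih _
  | r a _ ih => exact st_right _ ih

theorem mono_d {a b : T} (h : E a b) : E (d a) (d b) := by
  induction h with
  | refl => exact E.refl _
  | tail _ h ih => exact ih.trans (mono1_d h)

/-- iterated derivation -/
def dn : ℕ → T → T
  | 0, a => a
  | n + 1, a => d (dn n a)

theorem dn_mono {m n : ℕ} (h : m ≤ n) (a : T) : E (dn m a) (dn n a) := by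
  induction n, h using Nat.le_induction with
  | base => exact E.refl _
  | succ n _ ih => exact ih.trans (E_d _)

theorem E_dn {a b : T} (h : E a b) : ∃ n, E b (dn n a) := by
  induction h with
  | refl => exact ⟨0, E.refl _⟩
  | tail _ h ih =>
    obtain ⟨n, hn⟩ := ih
    exact ⟨n + 1, (step_d h).trans (mono_d hn)⟩

/-- confluence -/
theorem confl {a b c : T} (h : E a b) (h' : E a c) : ∃ u, E b u ∧ E c u := by
  obtain ⟨m, hm⟩ := E_dn h
  obtain ⟨n, hn⟩ := E_dn h'
  exact ⟨dn (max m n) a, hm.trans (dn_mono (le_max_left _ _) a),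
    hn.trans (dn_mono (le_max_right _ _) a)⟩

/-- existence of a common expansion -/
def J (a b : T) : Prop := ∃ u, E a u ∧ E b u

theorem J.refl (a : T) : J a a := ⟨a, E.refl _, E.refl _⟩
theorem J.symm {a b : T} (h : J a b) : J b a := ⟨h.choose, h.choose_spec.2, h.choose_spec.1⟩

theorem J.trans {a b c : T} (h : J a b) (h' : J b c) : J a c := by
  obtain ⟨u, hu, hu'⟩ := h
  obtain ⟨v, hv, hv'⟩ := h'
  obtain ⟨w, hw, hw'⟩ := confl hu' hv
  exact ⟨w, hu.trans hw, hv'.trans hw'⟩

theorem J.m {a a' b b' : T} (h : J a a') (h' : J b b') : J (m a b) (m a' b') := by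
  obtain ⟨u, hu, hu'⟩ := h
  obtain ⟨v, hv, hv'⟩ := h'
  exact ⟨T.m u v, hu.m hv, hu'.m hv'⟩

/-- right powers -/
def pw : ℕ → T
  | 0 => o
  | n + 1 => m o (pw n)

theorem absorb (t : T) : ∃ k, ∀ n, k ≤ n → J (m t (pw n)) (pw (n + 1)) := by
  induction t with
  | o => exact ⟨0, fun n _ => J.refl _⟩
  | m a b ha hb =>
    obtain ⟨k, hk⟩ := ha
    obtain ⟨l, hl⟩ := hb
    refine ⟨max k l + 1, fun n hn => ?_⟩
    obtain ⟨n, rfl⟩ : ∃ n', n = n' + 1 := ⟨n - 1, by omega⟩
    have h1 := hk n (by omega)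
    have h2 := hl n (by omega)
    have h3 := hk (n + 1) (by omega)
    -- (a b) pw (n+1) ~ (a b) (a pw n) ~ a (b pw n) ~ a pw (n+1) ~ pw (n+2)
    have e1 : J (T.m (T.m a b) (pw (n + 1))) (T.m (T.m a b) (T.m a (pw n))) :=
      (J.refl _).m h1.symm
    have e2 : J (T.m (T.m a b) (T.m a (pw n))) (T.m a (T.m b (pw n))) :=
      ⟨_, E.refl _, (E1.ld a b (pw n)).e⟩
    have e3 : J (T.m a (T.m b (pw n))) (T.m a (pw (n + 1))) := (J.refl _).m h2
    exact ((e1.trans e2).trans e3).trans h3

/-- iterated left subterms -/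
inductive Ls (a : T) : T → Prop
  | refl : Ls a a
  | step {b : T} (c : T) (h : Ls a b) : Ls a (m b c)

theorem Ls_E1 {a t t' : T} (h : Ls a t) (h' : E1 t t') : ∃ a', Ls a' t' ∧ E a a' := by
  induction h' with
  | ld x y z =>
    cases h with
    | refl => exact ⟨_, Ls.refl, (E1.ld x y z).e⟩
    | step _ h => exact ⟨a, (h.step y).step _, E.refl _⟩
  | @l x x' y hx ih =>
    cases h with
    | refl => exact ⟨_, Ls.refl, (hx.l y).e⟩
    | step _ h =>
      obtain ⟨a', h1, h2⟩ := ih h
      exact ⟨a', h1.step y, h2⟩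
  | @r x y y' hy ih =>
    cases h with
    | refl => exact ⟨_, Ls.refl, (hy.r x).e⟩
    | step _ h => exact ⟨a, h.step _, E.refl _⟩

theorem Ls_E {a t t' : T} (h : Ls a t) (h' : E t t') : ∃ a', Ls a' t' ∧ E a a' := by
  induction h' with
  | refl => exact ⟨a, h, E.refl _⟩
  | tail _ h2 ih =>
    obtain ⟨a', h3, h4⟩ := ih
    obtain ⟨a'', h5, h6⟩ := Ls_E1 h3 h2
    exact ⟨a'', h5, h4.trans h6⟩

theorem Ls_total {a b t : T} (ha : Ls a t) (hb : Ls b t) : Ls a b ∨ Ls b a := by
  induction t with
  | o =>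
    cases ha with
    | refl => exact Or.inr hb
  | m x y hx _ =>
    cases ha with
    | refl => exact Or.inr hb
    | step _ ha =>
      cases hb with
      | refl => exact Or.inl (ha.step y)
      | step _ hb => exact hx ha hb

/-- the comparison property of terms -/
theorem compare (t t' : T) : ∃ a a', E t a ∧ E t' a' ∧ (Ls a a' ∨ Ls a' a) := by
  obtain ⟨k, hk⟩ := absorb t
  obtain ⟨l, hl⟩ := absorb t'
  obtain ⟨u, h1, h2⟩ := (hk (max k l) (le_max_left _ _)).trans (hl (max k l) (le_max_right _ _)).symm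
  obtain ⟨a, h3, h4⟩ := Ls_E (Ls.refl.step (pw (max k l))) h1
  obtain ⟨a', h5, h6⟩ := Ls_E (Ls.refl.step (pw (max k l))) h2
  exact ⟨a, a', h4, h6, Ls_total h3 h5⟩

/-- evaluation in the braid group -/
def ev : T → Binf
  | o => 1
  | m a b => op (ev a) (ev b)

theorem ev_E1 {a b : T} (h : E1 a b) : ev a = ev b := by
  induction h with
  | ld a b c => exact op_ld _ _ _
  | l b _ ih => simp only [ev, ih]
  | r a _ ih => simp only [ev, ih]

theorem ev_E {a b : T} (h : E a b) : ev a = ev b := by
  induction h with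
  | refl => rfl
  | tail _ h ih => exact ih.trans (ev_E1 h)

theorem ev_special (a : T) : Special (ev a) := by
  induction a with
  | o => exact Special.one
  | m a b ha hb => exact Special.op ha hb

end T

theorem exists_term {x : Binf} (h : Special x) : ∃ t, T.ev t = x := by
  induction h with
  | one => exact ⟨T.o, rfl⟩
  | op _ _ iha ihb =>
    obtain ⟨t, rfl⟩ := iha
    obtain ⟨u, rfl⟩ := ihb
    exact ⟨T.m t u, rfl⟩

/-- strict iterated left divisibility -/
inductive Dv (x : Binf) : Binf → Prop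
  | base {z : Binf} (hz : Special z) : Dv x (op x z)
  | step {y z : Binf} (h : Dv x y) (hz : Special z) : Dv x (op y z)

theorem Dv_of_Ls {a b : T} (h : T.Ls a b) : T.ev a = T.ev b ∨ Dv (T.ev a) (T.ev b) := by
  induction h with
  | refl => exact Or.inl rfl
  | step c _ ih =>
    right
    rcases ih with ih | ih
    · change Dv (T.ev a) (op _ _)
      rw [← ih]
      exact Dv.base (T.ev_special c)
    · exact ih.step (T.ev_special c)

theorem comparable {x y : Binf} (hx : Special x) (hy : Special y) :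
    x = y ∨ Dv x y ∨ Dv y x := by
  obtain ⟨t, rfl⟩ := exists_term hx
  obtain ⟨t', rfl⟩ := exists_term hy
  obtain ⟨a, a', h1, h2, h3⟩ := T.compare t t'
  rw [T.ev_E h1, T.ev_E h2]
  rcases h3 with h3 | h3
  · rcases Dv_of_Ls h3 with h | h
    · exact Or.inl h
    · exact Or.inr (Or.inl h)
  · rcases Dv_of_Ls h3 with h | h
    · exact Or.inl h.symm
    · exact Or.inr (Or.inr h)

end Pool.Agent.K7.H32.SB
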