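import Mathlib

/-!
# Special braids: definitions and the algebra inside the braid group on infinitely many strands
-/

set_option autoImplicit false

namespace Pool.Agent.K7.H32.SB

/-- The braid relations; the letter `i` stands for the generator `σ_{i+1}`. -/
def Rels : Set (FreeGroup ℕ) :=
  {r | (∃ i j : ℕ, i + 2 ≤ j ∧
        r = FreeGroup.of i * FreeGroup.of j * (FreeGroup.of j * FreeGroup.of i)⁻¹) ∨
      (∃ i : ℕ, r = FreeGroup.of i * FreeGroup.of (i + 1) * FreeGroup.of i *
          (FreeGroup.of (i + 1) * FreeGroup.of i * FreeGroup.of (i + 1))⁻¹)}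

/-- The braid group on infinitely many strands. -/
abbrev Binf : Type := PresentedGroup Rels

/-- The generator `σ_{i+1}`. -/
def s (i : ℕ) : Binf := PresentedGroup.of i

/-- The braid group on `n` strands, as the subgroup generated by `σ_1, …, σ_{n-1}`. -/
def B (n : ℕ) : Subgroup Binf := Subgroup.closure {g | ∃ i : ℕ, i + 1 < n ∧ g = s i}

theorem rel_one {r : FreeGroup ℕ} (h : r ∈ Rels) : PresentedGroup.mk Rels r = 1 :=
  PresentedGroup.one_of_mem h

theorem s_comm (i j : ℕ) (h : i + 2 ≤ j) : s i * s j = s j * s i := by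
  have h1 := rel_one (r := FreeGroup.of i * FreeGroup.of j * (FreeGroup.of j * FreeGroup.of i)⁻¹)
    (Or.inl ⟨i, j, h, rfl⟩)
  rw [map_mul, map_inv, mul_inv_eq_one] at h1
  simpa [s, PresentedGroup.of] using h1

theorem s_braid (i : ℕ) : s i * s (i + 1) * s i = s (i + 1) * s i * s (i + 1) := by
  have h1 := rel_one (r := FreeGroup.of i * FreeGroup.of (i + 1) * FreeGroup.of i *
          (FreeGroup.of (i + 1) * FreeGroup.of i * FreeGroup.of (i + 1))⁻¹) (Or.inr ⟨i, rfl⟩)
  rw [map_mul, map_inv, mul_inv_eq_one] at h1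
  simpa [s, PresentedGroup.of] using h1

/-- A family satisfying the braid relations gives a homomorphism. -/
theorem lift_rels {G : Type*} [Group G] (f : ℕ → G)
    (h1 : ∀ i j : ℕ, i + 2 ≤ j → f i * f j = f j * f i)
    (h2 : ∀ i : ℕ, f i * f (i + 1) * f i = f (i + 1) * f i * f (i + 1)) :
    ∀ r ∈ Rels, FreeGroup.lift f r = 1 := by
  rintro r (⟨i, j, hij, rfl⟩ | ⟨i, rfl⟩)
  · rw [map_mul, map_inv, mul_inv_eq_one]
    simpa using h1 i j hij
  · rw [map_mul, map_inv, mul_inv_eq_one]
    simpa using h2 i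

/-- The homomorphism given by a family satisfying the braid relations. -/
def mkHom {G : Type*} [Group G] (f : ℕ → G)
    (h1 : ∀ i j : ℕ, i + 2 ≤ j → f i * f j = f j * f i)
    (h2 : ∀ i : ℕ, f i * f (i + 1) * f i = f (i + 1) * f i * f (i + 1)) : Binf →* G :=
  PresentedGroup.toGroup (lift_rels f h1 h2)

@[simp] theorem mkHom_s {G : Type*} [Group G] (f : ℕ → G)
    (h1 : ∀ i j : ℕ, i + 2 ≤ j → f i * f j = f j * f i)
    (h2 : ∀ i : ℕ, f i * f (i + 1) * f i = f (i + 1) * f i * f (i + 1)) (i : ℕ) :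
    mkHom f h1 h2 (s i) = f i :=
  PresentedGroup.toGroup.of (lift_rels f h1 h2)

/-- The shift endomorphism `σ_i ↦ σ_{i+1}`. -/
def sh : Binf →* Binf :=
  PresentedGroup.toGroup (f := fun i : ℕ => s (i + 1))
    (lift_rels _ (fun i j h => s_comm (i + 1) (j + 1) (by omega)) (fun i => s_braid (i + 1)))

@[simp] theorem sh_s (i : ℕ) : sh (s i) = s (i + 1) :=
  PresentedGroup.toGroup.of
    (lift_rels _ (fun i j h => s_comm (i + 1) (j + 1) (by omega)) (fun i => s_braid (i + 1)))

theorem hom_ext {G : Type*} [Group G] {f g : Binf →* G} (h : ∀ i, f (s i) = g (s i)) : f = g :=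
  PresentedGroup.ext fun i => h i

/-- The self-distributive operation `a ∧ b = a · sh(b) · σ_1 · sh(a)⁻¹`. -/
def op (a b : Binf) : Binf := a * sh b * s 0 * (sh a)⁻¹

/-- The special braids: the smallest set that contains `1` and is closed under the operation. -/
inductive Special : Binf → Prop
  | one : Special 1
  | op {a b : Binf} (ha : Special a) (hb : Special b) : Special (op a b)

/-- The set of special braids that belong to `B_n`. -/
def SpecialIn (n : ℕ) : Set Binf := {g | Special g ∧ g ∈ B n}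

/-! ### Commutation -/

theorem comm0 (g : Binf) : s 0 * sh (sh g) = sh (sh g) * s 0 := by
  have h : (MulAut.conj (s 0)).toMonoidHom.comp (sh.comp sh) = sh.comp sh := by
    refine hom_ext fun i => ?_
    simp only [MonoidHom.comp_apply, sh_s, MulEquiv.coe_toMonoidHom, MulAut.conj_apply]
    rw [s_comm 0 (i + 1 + 1) (by omega), mul_inv_cancel_right]
  have h2 := DFunLike.congr_fun h g
  simp only [MonoidHom.comp_apply, MulEquiv.coe_toMonoidHom, MulAut.conj_apply] at h2
  exact mul_inv_eq_iff_eq_mul.1 h2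

theorem comm1 (g : Binf) : s 1 * sh (sh (sh g)) = sh (sh (sh g)) * s 1 := by
  have h := congrArg sh (comm0 g)
  simpa using h

theorem comm0inv (g : Binf) : s 0 * (sh (sh g))⁻¹ = (sh (sh g))⁻¹ * s 0 := by
  rw [← map_inv, ← map_inv]; exact comm0 _

theorem comm1inv (g : Binf) : s 1 * (sh (sh (sh g)))⁻¹ = (sh (sh (sh g)))⁻¹ * s 1 := by
  rw [← map_inv, ← map_inv, ← map_inv]; exact comm1 _

/-! ### The filtration -/

theorem s_mem {i n : ℕ} (h : i + 1 < n) : s i ∈ B n := Subgroup.subset_closure ⟨i, h, rfl⟩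

theorem B_mono {m n : ℕ} (h : m ≤ n) : B m ≤ B n := by
  refine Subgroup.closure_mono ?_
  rintro g ⟨i, hi, rfl⟩
  exact ⟨i, by omega, rfl⟩

theorem sh_mem {n : ℕ} {g : Binf} (h : g ∈ B n) : sh g ∈ B (n + 1) := by
  unfold B at h
  induction h using Subgroup.closure_induction with
  | mem x hx =>
    obtain ⟨i, hi, rfl⟩ := hx
    rw [sh_s]; exact s_mem (by omega)
  | one => rw [map_one]; exact one_mem _
  | mul x y _ _ hx hy => rw [map_mul]; exact mul_mem hx hy
  | inv x _ hx => rw [map_inv]; exact inv_mem hx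

theorem exists_mem (g : Binf) : ∃ n, g ∈ B n := by
  have hg : g ∈ Subgroup.closure (Set.range (PresentedGroup.of (rels := Rels))) := by
    rw [PresentedGroup.closure_range_of]; trivial
  induction hg using Subgroup.closure_induction with
  | mem x hx =>
    obtain ⟨i, rfl⟩ := hx
    exact ⟨i + 2, s_mem (by omega)⟩
  | one => exact ⟨0, one_mem _⟩
  | mul x y _ _ hx hy =>
    obtain ⟨m, hm⟩ := hx
    obtain ⟨n, hn⟩ := hy
    exact ⟨max m n, mul_mem (B_mono (le_max_left _ _) hm) (B_mono (le_max_right _ _) hn)⟩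
  | inv x _ hx =>
    obtain ⟨m, hm⟩ := hx
    exact ⟨m, inv_mem hm⟩

/-! ### Right combs -/

/-- `τ_k = σ_k ⋯ σ_1`. -/
def tau : ℕ → Binf
  | 0 => 1
  | k + 1 => s k * tau k

theorem sh_tau (k : ℕ) : sh (tau k) * s 0 = tau (k + 1) := by
  induction k with
  | zero => simp [tau]
  | succ k ih =>
    rw [show tau (k + 1 + 1) = s (k + 1) * tau (k + 1) from rfl,
      show tau (k + 1) = s k * tau k from rfl, map_mul, mul_assoc, ih, sh_s]
    rfl

/-- `x_1 ∧ (x_2 ∧ (⋯ (x_k ∧ 1)))`. -/
def comb : List Binf → Binf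
  | [] => 1
  | x :: l => op x (comb l)

/-- `x_1 · sh(x_2) · sh²(x_3) ⋯`. -/
def pr : List Binf → Binf
  | [] => 1
  | x :: l => x * sh (pr l)

theorem comb_eq (l : List Binf) : comb l = pr l * tau l.length * (sh (pr l))⁻¹ := by
  induction l with
  | nil => simp [comb, pr, tau]
  | cons x l ih =>
    have hc : (sh (sh (pr l)))⁻¹ * s 0 = s 0 * (sh (sh (pr l)))⁻¹ := (comm0inv _).symm
    rw [comb, op, ih, pr, List.length_cons, ← sh_tau]
    simp only [map_mul, map_inv, mul_inv_rev]
    calc x * (sh (pr l) * sh (tau l.length) * (sh (sh (pr l)))⁻¹) * s 0 * (sh x)⁻¹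
        = x * sh (pr l) * sh (tau l.length) * ((sh (sh (pr l)))⁻¹ * s 0) * (sh x)⁻¹ := by group
      _ = x * sh (pr l) * sh (tau l.length) * (s 0 * (sh (sh (pr l)))⁻¹) * (sh x)⁻¹ := by rw [hc]
      _ = _ := by group

theorem special_comb {g : Binf} (h : Special g) :
    ∃ l : List Binf, (∀ x ∈ l, Special x) ∧ g = comb l := by
  induction h with
  | one => exact ⟨[], by simp, rfl⟩
  | @op a b ha _ _ ihb =>
    obtain ⟨l, hl, rfl⟩ := ihb
    refine ⟨a :: l, ?_, rfl⟩
    intro x hx
    rcases List.mem_cons.1 hx with rfl | hx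
    · exact ha
    · exact hl x hx

end Pool.Agent.K7.H32.SB
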