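import Pool.Agent.K7.H32.SB.Defs

/-!
# An action of the braid group on sequences of pairs of positive rational numbers

The crossing map is the subtraction-free rational version of Dynnikov's formulas.
-/

set_option autoImplicit false

namespace Pool.Agent.K7.H32.SB

namespace Dyn

variable {a b c d e f : ℚ}

/-- first output, first coordinate -/
def fa (a b c : ℚ) : ℚ := a * (1 + b) + c * b

/-- first output, second coordinate -/
def fb (a b c d : ℚ) : ℚ := d * b * c / (b * c + a * (1 + b) * (1 + d))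

/-- second output, first coordinate -/
def ga (a c d : ℚ) : ℚ := a * c * d / (c + a * (1 + d))

/-- second output, second coordinate -/
def gb (a b c d : ℚ) : ℚ := (b * c + a * (1 + b) * (1 + d)) / c

theorem fa_def (a b c : ℚ) : fa a b c = a * (1 + b) + c * b := rfl
theorem fb_def (a b c d : ℚ) :
    fb a b c d = d * b * c / (b * c + a * (1 + b) * (1 + d)) := rfl
theorem ga_def (a c d : ℚ) : ga a c d = a * c * d / (c + a * (1 + d)) := rfl
theorem gb_def (a b c d : ℚ) : gb a b c d = (b * c + a * (1 + b) * (1 + d)) / c := rfl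

/-- the polynomial `N` -/
def nn (a b c d : ℚ) : ℚ := b * c + a * (1 + b) * (1 + d)
/-- the polynomial `M` -/
def mm (a c d : ℚ) : ℚ := c + a * (1 + d)
/-- the polynomial `Q` -/
def qq (a b c d e f : ℚ) : ℚ := e * nn a b c d + a * c * d * (1 + b) * (1 + f)
/-- the polynomial `P` -/
def rr (a b c d e : ℚ) : ℚ := e * nn a b c d + a * c * d * (1 + b)
/-- the polynomial `K` -/
def kk (a b c d e f : ℚ) : ℚ := b * nn c d e f + a * (1 + b) * (1 + f)
/-- the polynomial `H` -/
def hh (a c d e f : ℚ) : ℚ := nn c d e f + a * (1 + f)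

theorem fb_eq (a b c d : ℚ) : fb a b c d = b * c * d / nn a b c d := by
  rw [fb, nn]; ring
theorem ga_eq (a c d : ℚ) : ga a c d = a * c * d / mm a c d := rfl
theorem gb_eq (a b c d : ℚ) : gb a b c d = nn a b c d / c := rfl

theorem gb_one (hc : 0 < c) : 1 + gb a b c d = (1 + b) * mm a c d / c := by
  rw [gb, mm]; field_simp; ring

theorem u0 (ha : 0 < a) (hc : 0 < c) (hd : 0 < d) :
    ga a c d * (1 + gb a b c d) = a * d * (1 + b) := by
  simp only [ga, gb]; field_simp; ring

theorem s0 (ha : 0 < a) (hb : 0 < b) (hc : 0 < c) (hd : 0 < d) :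
    1 + fb a b c d = (1 + d) * fa a b c / nn a b c d := by
  simp only [fb, nn, fa]; field_simp; ring

theorem u1 (ha : 0 < a) (hc : 0 < c) (hd : 0 < d) :
    fa (ga a c d) (gb a b c d) e = rr a b c d e / c := by
  rw [fa, u0 ha hc hd, gb_eq, rr]; field_simp; ring

theorem u2 (ha : 0 < a) (hb : 0 < b) (hc : 0 < c) (hd : 0 < d) (he : 0 < e) (hf : 0 < f) :
    fb (ga a c d) (gb a b c d) e f = e * f * nn a b c d / qq a b c d e f := by
  rw [fb, u0 ha hc hd, gb, qq, nn]; field_simp

theorem u3 (ha : 0 < a) (hb : 0 < b) (hc : 0 < c) (hd : 0 < d) (he : 0 < e) (hf : 0 < f) :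
    1 + fb (ga a c d) (gb a b c d) e f = (1 + f) * rr a b c d e / qq a b c d e f := by
  rw [u2 ha hb hc hd he hf, qq, rr, nn]; field_simp; ring

theorem w1 (ha : 0 < a) (hc : 0 < c) (hd : 0 < d) (he : 0 < e) (hf : 0 < f) :
    ga (ga a c d) e f = a * c * d * e * f /
      (e * mm a c d + a * c * d * (1 + f)) := by
  rw [ga, ga, mm]; field_simp

theorem w2 (ha : 0 < a) (hc : 0 < c) (hd : 0 < d) (he : 0 < e) :
    gb (ga a c d) (gb a b c d) e f = qq a b c d e f / (c * e) := by
  rw [gb, u0 ha hc hd, gb, qq, nn]; field_simp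

theorem p2 (ha : 0 < a) (hb : 0 < b) (hc : 0 < c) (hd : 0 < d) (he : 0 < e) (hf : 0 < f) :
    fb a b (fa c d e) (fb c d e f) = b * d * e * f / kk a b c d e f := by
  rw [fb, s0 hc hd he hf, fb, fa, kk, nn]
  field_simp

theorem h1 (ha : 0 < a) (hc : 0 < c) (hd : 0 < d) (he : 0 < e) (hf : 0 < f) :
    ga a (fa c d e) (fb c d e f) = a * d * e * f / hh a c d e f := by
  rw [ga, s0 hc hd he hf, fb, fa, hh, nn]
  field_simp

theorem h2 (ha : 0 < a) (hb : 0 < b) (hc : 0 < c) (hd : 0 < d) (he : 0 < e) (hf : 0 < f) :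
    gb a b (fa c d e) (fb c d e f) = kk a b c d e f / nn c d e f := by
  rw [gb, s0 hc hd he hf, fa, kk, nn]
  field_simp

theorem h3 (ha : 0 < a) (hb : 0 < b) (hc : 0 < c) (hd : 0 < d) (he : 0 < e) (hf : 0 < f) :
    1 + gb a b (fa c d e) (fb c d e f) = (1 + b) * hh a c d e f / nn c d e f := by
  rw [h2 ha hb hc hd he hf, kk, hh, nn]; field_simp; ring

/-- identity 1 -/
theorem i1 (ha : 0 < a) (hb : 0 < b) (hc : 0 < c) (hd : 0 < d) :
    fa (fa a b c) (fb a b c d) (fa (ga a c d) (gb a b c d) e) = fa a b (fa c d e) := by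
  rw [u1 ha hc hd, fa, s0 ha hb hc hd, fb, rr, nn]
  simp only [fa]
  field_simp
  ring

theorem key1 (a b c d e f : ℚ) :
    b * d * qq a b c d e f + (1 + d) * (1 + f) * fa a b c * fa a b c =
      nn a b c d * kk a b c d e f := by
  simp only [qq, kk, nn, fa]; ring

theorem key2 (a b c d e f : ℚ) :
    c * e * kk a b c d e f + a * d * (1 + b) * (1 + d) * mm c e f * mm c e f =
      nn c d e f * qq a b c d e f := by
  simp only [qq, kk, nn, mm]; ring

theorem key3 (a c d e f : ℚ) :
    c * e * hh a c d e f + a * d * (1 + d) * mm c e f * mm c e f =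
      nn c d e f * (e * mm a c d + a * c * d * (1 + f)) := by
  simp only [hh, nn, mm]; ring

theorem key4 (a b c d e f : ℚ) :
    qq a b c d e f + c * fa a b c * (1 + f) = nn a b c d * mm c e f := by
  simp only [qq, nn, mm, fa]; ring

theorem key5 (a b c d e f : ℚ) :
    a * d * (1 + b) * mm c e f + c * kk a b c d e f = fa a b c * nn c d e f := by
  simp only [kk, nn, mm, fa]; ring

theorem fa_pos (ha : 0 < a) (hb : 0 < b) (hc : 0 < c) : 0 < fa a b c := by rw [fa]; positivity
theorem nn_pos (ha : 0 < a) (hb : 0 < b) (hc : 0 < c) (hd : 0 < d) : 0 < nn a b c d := by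
  rw [nn]; positivity
theorem mm_pos (ha : 0 < a) (hc : 0 < c) (hd : 0 < d) : 0 < mm a c d := by
  rw [mm]; positivity
theorem qq_pos (ha : 0 < a) (hb : 0 < b) (hc : 0 < c) (hd : 0 < d) (he : 0 < e) (hf : 0 < f) :
    0 < qq a b c d e f := by
  rw [qq, nn]; positivity
theorem rr_pos (ha : 0 < a) (hb : 0 < b) (hc : 0 < c) (hd : 0 < d) (he : 0 < e) :
    0 < rr a b c d e := by
  rw [rr, nn]; positivity
theorem kk_pos (ha : 0 < a) (hb : 0 < b) (hc : 0 < c) (hd : 0 < d) (he : 0 < e) (hf : 0 < f) :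
    0 < kk a b c d e f := by
  rw [kk, nn]; positivity
theorem hh_pos (ha : 0 < a) (hc : 0 < c) (hd : 0 < d) (he : 0 < e) (hf : 0 < f) :
    0 < hh a c d e f := by
  rw [hh, nn]; positivity

theorem l2a (ha : 0 < a) (hb : 0 < b) (hc : 0 < c) (hd : 0 < d) (he : 0 < e) (hf : 0 < f) :
    fb a b c d * fa (ga a c d) (gb a b c d) e + fa a b c * (1 + fb a b c d) *
      (1 + fb (ga a c d) (gb a b c d) e f) = rr a b c d e * kk a b c d e f / qq a b c d e f := by
  rw [s0 ha hb hc hd, u3 ha hb hc hd he hf, u1 ha hc hd, fb_eq]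
  have k := key1 a b c d e f
  have p1 := fa_pos ha hb hc
  have p2 := nn_pos ha hb hc hd
  have p3 := qq_pos ha hb hc hd he hf
  generalize fa a b c = A at *
  generalize nn a b c d = N at *
  generalize rr a b c d e = P at *
  generalize qq a b c d e f = Q at *
  generalize kk a b c d e f = K at *
  field_simp
  linear_combination P * k

/-- identity 2 -/
theorem i2 (ha : 0 < a) (hb : 0 < b) (hc : 0 < c) (hd : 0 < d) (he : 0 < e) (hf : 0 < f) :
    fb (fa a b c) (fb a b c d) (fa (ga a c d) (gb a b c d) e)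
      (fb (ga a c d) (gb a b c d) e f) = fb a b (fa c d e) (fb c d e f) := by
  rw [p2 ha hb hc hd he hf, fb, l2a ha hb hc hd he hf, u2 ha hb hc hd he hf, u1 ha hc hd, fb_eq]
  have p2 := nn_pos ha hb hc hd
  have p3 := qq_pos ha hb hc hd he hf
  have p4 := rr_pos ha hb hc hd he
  have p5 := kk_pos ha hb hc hd he hf
  field_simp

/-- identity 3 -/
theorem i3 (ha : 0 < a) (hb : 0 < b) (hc : 0 < c) (hd : 0 < d) (he : 0 < e) (hf : 0 < f) :
    ga (fa a b c) (fa (ga a c d) (gb a b c d) e) (fb (ga a c d) (gb a b c d) e f) =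
      fa (ga a (fa c d e) (fb c d e f)) (gb a b (fa c d e) (fb c d e f)) (ga c e f) := by
  rw [ga, fa_def (ga a (fa c d e) (fb c d e f)), h3 ha hb hc hd he hf, h2 ha hb hc hd he hf,
    h1 ha hc hd he hf, u3 ha hb hc hd he hf, u2 ha hb hc hd he hf, u1 ha hc hd, ga_eq]
  have k4 := key4 a b c d e f
  have k5 := key5 a b c d e f
  have p1 := fa_pos ha hb hc
  have p2 := nn_pos ha hb hc hd
  have p2' := nn_pos hc hd he hf
  have p3 := qq_pos ha hb hc hd he hf
  have p4 := rr_pos ha hb hc hd he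
  have p5 := kk_pos ha hb hc hd he hf
  have p6 := hh_pos ha hc hd he hf
  have p7 := mm_pos hc he hf
  have e1 : rr a b c d e / c + fa a b c * ((1 + f) * rr a b c d e / qq a b c d e f) =
      rr a b c d e * (nn a b c d * mm c e f) / (c * qq a b c d e f) := by
    rw [← k4]; field_simp
  have e2 : a * d * e * f / hh a c d e f * ((1 + b) * hh a c d e f / nn c d e f) +
      c * e * f / mm c e f * (kk a b c d e f / nn c d e f) = e * f * fa a b c / mm c e f := by
    field_simp
    linear_combination k5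
  rw [e1, e2]
  field_simp

/-- identity 4 -/
theorem r2a (ha : 0 < a) (hb : 0 < b) (hc : 0 < c) (hd : 0 < d) (he : 0 < e) (hf : 0 < f) :
    gb a b (fa c d e) (fb c d e f) * ga c e f + ga a (fa c d e) (fb c d e f) *
      (1 + gb a b (fa c d e) (fb c d e f)) * (1 + gb c d e f) =
      f * qq a b c d e f / mm c e f := by
  rw [h3 ha hb hc hd he hf, h2 ha hb hc hd he hf, h1 ha hc hd he hf, ga_eq, gb_one he]
  have k2 := key2 a b c d e f
  have p2' := nn_pos hc hd he hf
  have p5 := kk_pos ha hb hc hd he hf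
  have p6 := hh_pos ha hc hd he hf
  have p7 := mm_pos hc he hf
  field_simp
  linear_combination k2

theorem i4 (ha : 0 < a) (hb : 0 < b) (hc : 0 < c) (hd : 0 < d) (he : 0 < e) (hf : 0 < f) :
    gb (fa a b c) (fb a b c d) (fa (ga a c d) (gb a b c d) e)
      (fb (ga a c d) (gb a b c d) e f) =
    fb (ga a (fa c d e) (fb c d e f)) (gb a b (fa c d e) (fb c d e f)) (ga c e f)
      (gb c d e f) := by
  rw [gb_def (fa a b c), l2a ha hb hc hd he hf, fb_def (ga a (fa c d e) (fb c d e f)),
    r2a ha hb hc hd he hf, u1 ha hc hd, h2 ha hb hc hd he hf, ga_eq, gb_eq]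
  have p2 := nn_pos ha hb hc hd
  have p2' := nn_pos hc hd he hf
  have p3 := qq_pos ha hb hc hd he hf
  have p4 := rr_pos ha hb hc hd he
  have p5 := kk_pos ha hb hc hd he hf
  have p6 := hh_pos ha hc hd he hf
  have p7 := mm_pos hc he hf
  field_simp

/-- identity 5 -/
theorem i5 (ha : 0 < a) (hc : 0 < c) (hd : 0 < d) (he : 0 < e) (hf : 0 < f) :
    ga (ga a c d) e f = ga (ga a (fa c d e) (fb c d e f)) (ga c e f) (gb c d e f) := by
  rw [w1 ha hc hd he hf, ga_def (ga a (fa c d e) (fb c d e f)), h1 ha hc hd he hf, gb_one he,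
    ga_eq, gb_eq]
  have k3 := key3 a c d e f
  have p2' := nn_pos hc hd he hf
  have p6 := hh_pos ha hc hd he hf
  have p7 := mm_pos hc he hf
  have p8 := mm_pos ha hc hd
  have e1 : c * e * f / mm c e f + a * d * e * f / hh a c d e f * ((1 + d) * mm c e f / e) =
      f * (nn c d e f * (e * mm a c d + a * c * d * (1 + f))) / (mm c e f * hh a c d e f) := by
    rw [← k3]; field_simp
  rw [e1]
  field_simp

/-- identity 6 -/
theorem i6 (ha : 0 < a) (hb : 0 < b) (hc : 0 < c) (hd : 0 < d) (he : 0 < e) (hf : 0 < f) :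
    gb (ga a c d) (gb a b c d) e f =
    gb (ga a (fa c d e) (fb c d e f)) (gb a b (fa c d e) (fb c d e f)) (ga c e f)
      (gb c d e f) := by
  rw [w2 ha hc hd he, gb_def (ga a (fa c d e) (fb c d e f)), r2a ha hb hc hd he hf, ga_eq]
  have p3 := qq_pos ha hb hc hd he hf
  have p7 := mm_pos hc he hf
  field_simp

/-! ### The inverse map -/

theorem j1 (ha : 0 < a) (hb : 0 < b) (hc : 0 < c) (hd : 0 < d) :
    fa (fa a b c)⁻¹ (fb a b c d) (ga a c d)⁻¹ = a⁻¹ := by
  rw [fa_def (fa a b c)⁻¹, s0 ha hb hc hd, fb_eq, ga_eq]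
  have p1 := fa_pos ha hb hc
  have p2 := nn_pos ha hb hc hd
  have p8 := mm_pos ha hc hd
  have e1 : a * (1 + d) + b * mm a c d = nn a b c d := by simp only [mm, nn]; ring
  field_simp
  linear_combination e1

theorem j0 (ha : 0 < a) (hb : 0 < b) (hc : 0 < c) (hd : 0 < d) :
    fb a b c d * (ga a c d)⁻¹ + (fa a b c)⁻¹ * (1 + fb a b c d) * (1 + gb a b c d) =
      mm a c d / (a * c) := by
  rw [s0 ha hb hc hd, gb_one hc, fb_eq, ga_eq]
  have p1 := fa_pos ha hb hc
  have p2 := nn_pos ha hb hc hd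
  have p8 := mm_pos ha hc hd
  have e1 : b * c + a * (1 + b) * (1 + d) = nn a b c d := rfl
  field_simp
  linear_combination e1

theorem j2 (ha : 0 < a) (hb : 0 < b) (hc : 0 < c) (hd : 0 < d) :
    fb (fa a b c)⁻¹ (fb a b c d) (ga a c d)⁻¹ (gb a b c d) = b := by
  rw [fb_def (fa a b c)⁻¹, j0 ha hb hc hd, fb_eq, ga_eq, gb_eq]
  have p2 := nn_pos ha hb hc hd
  have p8 := mm_pos ha hc hd
  field_simp

theorem j3 (ha : 0 < a) (hb : 0 < b) (hc : 0 < c) (hd : 0 < d) :
    ga (fa a b c)⁻¹ (ga a c d)⁻¹ (gb a b c d) = c⁻¹ := by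
  have p1 := fa_pos ha hb hc
  have p2 := nn_pos ha hb hc hd
  have p8 := mm_pos ha hc hd
  have p9 : 0 < ga a c d := by rw [ga_eq]; positivity
  have e1 : fa a b c + a * d * (1 + b) = nn a b c d := by simp only [fa, nn]; ring
  have e2 : (ga a c d)⁻¹ + (fa a b c)⁻¹ * (1 + gb a b c d) =
      nn a b c d / (ga a c d * fa a b c) := by
    rw [← e1, ← u0 ha hc hd]
    field_simp
  rw [ga_def (fa a b c)⁻¹, e2, gb_eq]
  field_simp

theorem j4 (ha : 0 < a) (hb : 0 < b) (hc : 0 < c) (hd : 0 < d) :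
    gb (fa a b c)⁻¹ (fb a b c d) (ga a c d)⁻¹ (gb a b c d) = d := by
  rw [gb_def (fa a b c)⁻¹, j0 ha hb hc hd, ga_eq]
  have p8 := mm_pos ha hc hd
  field_simp

/-! ### The crossing map on pairs of positive rational numbers -/

/-- pairs of positive rational numbers -/
@[ext] structure PP : Type where
  a : ℚ
  b : ℚ
  ha : 0 < a
  hb : 0 < b

/-- the first output of the crossing map -/
def cf (x y : PP) : PP where
  a := fa x.a x.b y.a
  b := fb x.a x.b y.a y.b
  ha := fa_pos x.ha x.hb y.ha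
  hb := by
    have h1 := x.ha; have h2 := x.hb; have h3 := y.ha; have h4 := y.hb
    rw [fb]; positivity

/-- the second output of the crossing map -/
def cg (x y : PP) : PP where
  a := ga x.a y.a y.b
  b := gb x.a x.b y.a y.b
  ha := by
    have h1 := x.ha; have h2 := x.hb; have h3 := y.ha; have h4 := y.hb
    rw [ga]; positivity
  hb := by
    have h1 := x.ha; have h2 := x.hb; have h3 := y.ha; have h4 := y.hb
    rw [gb]; positivity

/-- inversion of the first coordinate -/
def iv (x : PP) : PP := ⟨x.a⁻¹, x.b, inv_pos.2 x.ha, x.hb⟩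

theorem iv_iv (x : PP) : iv (iv x) = x := by
  apply PP.ext
  · exact inv_inv _
  · rfl

theorem iv_cf (x y : PP) : iv (cf (iv (cf x y)) (iv (cg x y))) = x := by
  apply PP.ext
  · change (fa (fa x.a x.b y.a)⁻¹ (fb x.a x.b y.a y.b) (ga x.a y.a y.b)⁻¹)⁻¹ = x.a
    rw [j1 x.ha x.hb y.ha y.hb, inv_inv]
  · exact j2 x.ha x.hb y.ha y.hb

theorem iv_cg (x y : PP) : iv (cg (iv (cf x y)) (iv (cg x y))) = y := by
  apply PP.ext
  · change (ga (fa x.a x.b y.a)⁻¹ (ga x.a y.a y.b)⁻¹ (gb x.a x.b y.a y.b))⁻¹ = y.a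
    rw [j3 x.ha x.hb y.ha y.hb, inv_inv]
  · exact j4 x.ha x.hb y.ha y.hb

theorem yb1 (x y z : PP) : cf (cf x y) (cf (cg x y) z) = cf x (cf y z) :=
  PP.ext (i1 x.ha x.hb y.ha y.hb) (i2 x.ha x.hb y.ha y.hb z.ha z.hb)

theorem yb2 (x y z : PP) : cg (cf x y) (cf (cg x y) z) = cf (cg x (cf y z)) (cg y z) :=
  PP.ext (i3 x.ha x.hb y.ha y.hb z.ha z.hb) (i4 x.ha x.hb y.ha y.hb z.ha z.hb)

theorem yb3 (x y z : PP) : cg (cg x y) z = cg (cg x (cf y z)) (cg y z) :=
  PP.ext (i5 x.ha y.ha y.hb z.ha z.hb) (i6 x.ha x.hb y.ha y.hb z.ha z.hb)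

/-! ### The action on sequences -/

/-- sequences -/
abbrev Q : Type := ℕ → PP

/-- the generator -/
def gf (i : ℕ) (v : Q) : Q := fun j =>
  if j = i then cf (v i) (v (i + 1)) else if j = i + 1 then cg (v i) (v (i + 1)) else v j

/-- inversion of all first coordinates -/
def ivs (v : Q) : Q := fun j => iv (v j)

theorem ivs_ivs (v : Q) : ivs (ivs v) = v := funext fun j => iv_iv (v j)

theorem ivs_gf (i : ℕ) (v : Q) : ivs (gf i (ivs (gf i v))) = v := by
  funext j
  simp only [ivs, gf]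
  by_cases h1 : j = i
  · subst h1
    simp only [if_true, Nat.succ_ne_self, if_false]
    exact iv_cf _ _
  · by_cases h2 : j = i + 1
    · subst h2
      simp only [if_true, Nat.succ_ne_self, if_false]
      exact iv_cg _ _
    · simp only [h1, h2, if_false]
      exact iv_iv _

theorem gf_ivs (i : ℕ) (v : Q) : gf i (ivs (gf i (ivs v))) = v := by
  have h := congrArg ivs (ivs_gf i (ivs v))
  rwa [ivs_ivs, ivs_ivs] at h

/-- the generator as a permutation -/
def G (i : ℕ) : Equiv.Perm Q where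
  toFun := gf i
  invFun := fun v => ivs (gf i (ivs v))
  left_inv := ivs_gf i
  right_inv := gf_ivs i

theorem G_apply (i : ℕ) (v : Q) : G i v = gf i v := rfl

theorem G_comm (i j : ℕ) (h : i + 2 ≤ j) : G i * G j = G j * G i := by
  apply Equiv.ext
  intro v
  funext k
  simp only [Equiv.Perm.mul_apply, G_apply, gf]
  have h1 : ¬ i = j := by omega
  have h2 : ¬ i + 1 = j := by omega
  have h3 : ¬ i = j + 1 := by omega
  have h4 : ¬ j = i := by omega
  have h5 : ¬ j = i + 1 := by omega
  have h6 : ¬ j + 1 = i := by omega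
  have h7 : ¬ i + 1 = j + 1 := by omega
  have h8 : ¬ j + 1 = i + 1 := by omega
  simp only [h1, h2, h3, h4, h5, h6, h7, h8, if_false]
  by_cases k1 : k = i
  · subst k1; simp only [if_true, h1, h3, if_false]
  · by_cases k2 : k = i + 1
    · subst k2; simp only [if_true, h2, h7, if_false, Nat.succ_ne_self]
    · simp only [k1, k2, if_false]

theorem G_braid (i : ℕ) : G i * G (i + 1) * G i = G (i + 1) * G i * G (i + 1) := by
  apply Equiv.ext
  intro v
  funext k
  simp only [Equiv.Perm.mul_apply, G_apply, gf]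
  have h1 : ¬ i = i + 1 := by omega
  have h2 : ¬ i = i + 1 + 1 := by omega
  have h3 : ¬ i + 1 = i := by omega
  have h4 : ¬ i + 1 = i + 1 + 1 := by omega
  have h5 : ¬ i + 1 + 1 = i := by omega
  have h6 : ¬ i + 1 + 1 = i + 1 := by omega
  simp only [h1, h2, h3, h4, h5, h6, if_false, if_true]
  by_cases k1 : k = i
  · subst k1
    simp only [if_true, h1, h2, if_false]
    exact yb1 _ _ _
  · by_cases k2 : k = i + 1
    · subst k2
      simp only [if_true, h3, h4, if_false]
      exact yb2 _ _ _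
    · by_cases k3 : k = i + 1 + 1
      · subst k3
        simp only [if_true, h5, h6, if_false]
        exact yb3 _ _ _
      · simp only [k1, k2, k3, if_false]

/-- the action -/
def Dy : Binf →* Equiv.Perm Q := mkHom G G_comm G_braid

@[simp] theorem Dy_s (i : ℕ) : Dy (s i) = G i := mkHom_s _ _ _ _

/-! ### The shift -/

/-- prepend a value to a sequence -/
def cons (x : PP) (v : Q) : Q := fun j => Nat.casesOn j x v

@[simp] theorem cons_zero (x : PP) (v : Q) : cons x v 0 = x := rfl
@[simp] theorem cons_succ (x : PP) (v : Q) (j : ℕ) : cons x v (j + 1) = v j := rfl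

/-- drop the first entry -/
def tl (v : Q) : Q := fun j => v (j + 1)

@[simp] theorem tl_cons (x : PP) (v : Q) : tl (cons x v) = v := rfl

@[simp] theorem cons_tl (v : Q) : cons (v 0) (tl v) = v := by
  funext j; cases j <;> rfl

/-- the shift of a permutation -/
def shE : Equiv.Perm Q →* Equiv.Perm Q where
  toFun P :=
    { toFun := fun v => cons (v 0) (P (tl v))
      invFun := fun v => cons (v 0) (P.symm (tl v))
      left_inv := fun v => by simp
      right_inv := fun v => by simp }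
  map_one' := by
    apply Equiv.ext
    intro v
    exact cons_tl v
  map_mul' P Q' := by
    apply Equiv.ext
    intro v
    change cons (v 0) ((P * Q') (tl v)) =
      cons ((cons (v 0) (Q' (tl v))) 0) (P (tl (cons (v 0) (Q' (tl v)))))
    simp

theorem shE_apply (P : Equiv.Perm Q) (v : Q) : shE P v = cons (v 0) (P (tl v)) := rfl

theorem Dy_sh (g : Binf) : Dy (sh g) = shE (Dy g) := by
  have h : Dy.comp sh = shE.comp Dy := by
    refine hom_ext fun i => ?_
    simp only [MonoidHom.comp_apply, sh_s, Dy_s]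
    apply Equiv.ext
    intro v
    rw [shE_apply, G_apply, G_apply]
    funext j
    cases j with
    | zero =>
      simp only [gf, cons_zero]
      rw [if_neg (by omega), if_neg (by omega)]
    | succ j =>
      simp only [gf, cons_succ, tl, Nat.add_right_cancel_iff]
  exact DFunLike.congr_fun h g

theorem shE_injective {P P' : Equiv.Perm Q} (h : shE P = shE P') : P = P' := by
  apply Equiv.ext
  intro v
  have h1 := congrArg (fun R : Equiv.Perm Q => tl (R (cons ⟨1, 1, one_pos, one_pos⟩ v))) h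
  simpa [shE_apply] using h1

/-! ### Increasing braids -/

/-- the braid strictly increases the first entry of every sequence -/
def Inc (g : Binf) : Prop := ∀ v : Q, (v 0).a < (Dy g v 0).a

theorem sh_fix (g : Binf) (v : Q) : Dy (sh g) v 0 = v 0 := by
  rw [Dy_sh, shE_apply, cons_zero]

theorem Inc_s : Inc (s 0) := by
  intro v
  rw [Dy_s, G_apply]
  simp only [gf, if_true]
  change (v 0).a < fa (v 0).a (v 0).b (v (0 + 1)).a
  rw [fa]
  have h1 := (v 0).ha
  have h2 := (v 0).hb
  have h3 := (v (0 + 1)).ha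
  nlinarith [mul_pos h1 h2, mul_pos h3 h2]

theorem Inc.mul {g h : Binf} (hg : Inc g) (hh : Inc h) : Inc (g * h) := by
  intro v
  rw [map_mul, Equiv.Perm.mul_apply]
  exact (hh v).trans (hg _)

theorem Inc.mul_sh {g : Binf} (hg : Inc g) (h : Binf) : Inc (g * sh h) := by
  intro v
  rw [map_mul, Equiv.Perm.mul_apply]
  have h1 := hg (Dy (sh h) v)
  rwa [sh_fix] at h1

theorem Inc.sh_mul {g : Binf} (hg : Inc g) (h : Binf) : Inc (sh h * g) := by
  intro v
  rw [map_mul, Equiv.Perm.mul_apply, sh_fix]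
  exact hg v

theorem Inc.ne {g : Binf} (hg : Inc g) (h : Binf) : Dy g ≠ Dy (sh h) := by
  intro he
  have h1 := hg (fun _ => ⟨1, 1, one_pos, one_pos⟩)
  rw [he, sh_fix] at h1
  exact lt_irrefl _ h1

end Dyn

end Pool.Agent.K7.H32.SB
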