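import Pool.Agent.K7.H32.SB.Cls

/-!
# The action together with the exponent sum is faithful on `B_3`
-/

set_option autoImplicit false

namespace Pool.Agent.K7.H32.SB

def X3 : Binf := s 1 * s 0 * s 1
def Y3 : Binf := s 1 * s 0
def C3 : Binf := X3 * X3

def val : List Bool → Binf
  | [] => 1
  | true :: w => (s 1)⁻¹ * val w
  | false :: w => s 0 * val w

theorem br : s 0 * s 1 * s 0 = s 1 * s 0 * s 1 := s_braid 0

theorem X3_s0 : X3 * s 0 = s 1 * X3 := by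
  calc X3 * s 0 = s 1 * (s 0 * s 1 * s 0) := by rw [X3]; group
    _ = s 1 * X3 := by rw [br, X3]

theorem X3_s1 : X3 * s 1 = s 0 * X3 := by
  calc X3 * s 1 = (s 0 * s 1 * s 0) * s 1 := by rw [X3, br]
    _ = s 0 * X3 := by rw [X3]; group

theorem C3_s0 : Commute C3 (s 0) := by
  change C3 * s 0 = s 0 * C3
  rw [C3, mul_assoc, X3_s0, ← mul_assoc, X3_s1, mul_assoc]

theorem C3_s1 : Commute C3 (s 1) := by
  change C3 * s 1 = s 1 * C3
  rw [C3, mul_assoc, X3_s1, ← mul_assoc, X3_s0, mul_assoc]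

theorem C3_Y3 : Commute C3 Y3 := C3_s1.mul_right C3_s0
theorem C3_X3 : Commute C3 X3 := (C3_s1.mul_right C3_s0).mul_right C3_s1

theorem X3_inv : X3 * (s 1)⁻¹ = Y3 := by rw [X3, Y3]; group
theorem X3_pos : X3 * s 0 = Y3 * Y3 := by rw [X3, Y3]; group

theorem Y3_cube : Y3 * Y3 * Y3 = C3 := by
  calc Y3 * Y3 * Y3 = (s 1 * s 0 * s 1) * (s 0 * s 1 * s 0) := by rw [Y3]; group
    _ = C3 := by rw [br]; rfl

theorem X3_Y3 : X3 * Y3 = C3 * (s 1)⁻¹ := by
  rw [C3, mul_assoc, X3_inv]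

theorem X3_Y3_Y3 : X3 * (Y3 * Y3) = C3 * s 0 := by
  rw [C3, mul_assoc, X3_pos]

/-- the normal form -/
def NF (g : Binf) : Prop :=
  ∃ (k : ℤ) (i j : ℕ) (w : List Bool), i < 3 ∧ j < 2 ∧ g = C3 ^ k * (Y3 ^ i * (val w * X3 ^ j))

theorem NF_one : NF 1 := ⟨0, 0, 0, [], by omega, by omega, by simp [val]⟩

theorem NF_C (n : ℤ) {g : Binf} (h : NF g) : NF (C3 ^ n * g) := by
  obtain ⟨k, i, j, w, hi, hj, rfl⟩ := h
  exact ⟨n + k, i, j, w, hi, hj, by rw [zpow_add, mul_assoc]⟩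

theorem NF_Y {g : Binf} (h : NF g) : NF (Y3 * g) := by
  obtain ⟨k, i, j, w, hi, hj, rfl⟩ := h
  have hc : Y3 * C3 ^ k = C3 ^ k * Y3 := ((C3_Y3.zpow_left k).eq).symm
  by_cases h2 : i < 2
  · refine ⟨k, i + 1, j, w, by omega, hj, ?_⟩
    rw [← mul_assoc, hc, mul_assoc, ← mul_assoc Y3, ← pow_succ']
  · have : i = 2 := by omega
    subst this
    refine ⟨k + 1, 0, j, w, by omega, hj, ?_⟩
    rw [← mul_assoc, hc, mul_assoc, ← mul_assoc Y3, ← pow_succ', zpow_add_one, pow_zero, one_mul,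
      show Y3 ^ (2 + 1) = C3 by rw [← Y3_cube]; simp [pow_succ], mul_assoc]

theorem NF_X {g : Binf} (h : NF g) : NF (X3 * g) := by
  obtain ⟨k, i, j, w, hi, hj, rfl⟩ := h
  have hc : X3 * C3 ^ k = C3 ^ k * X3 := ((C3_X3.zpow_left k).eq).symm
  rw [← mul_assoc, hc, mul_assoc]
  apply NF_C
  obtain h0 | h0 | h0 : i = 0 ∨ i = 1 ∨ i = 2 := by omega
  · subst h0
    rw [pow_zero, one_mul]
    match w with
    | [] =>
      by_cases hj1 : j = 0
      · subst hj1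
        exact ⟨0, 0, 1, [], by omega, by omega, by simp [val]⟩
      · have : j = 1 := by omega
        subst this
        exact ⟨1, 0, 0, [], by omega, by omega, by simp [val, C3]⟩
    | true :: w =>
      refine ⟨0, 1, j, w, by omega, hj, ?_⟩
      rw [zpow_zero, one_mul, pow_one, val, ← X3_inv]; group
    | false :: w =>
      refine ⟨0, 2, j, w, by omega, hj, ?_⟩
      rw [zpow_zero, one_mul, pow_two, val, ← X3_pos]; group
  · subst h0
    refine ⟨1, 0, j, true :: w, by omega, hj, ?_⟩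
    rw [pow_one, zpow_one, pow_zero, one_mul, ← mul_assoc, X3_Y3, val]; group
  · subst h0
    refine ⟨1, 0, j, false :: w, by omega, hj, ?_⟩
    rw [pow_two, zpow_one, pow_zero, one_mul, ← mul_assoc, X3_Y3_Y3, val]; group

theorem s0_eq : s 0 = C3 ^ (-1 : ℤ) * (X3 * (Y3 * Y3)) := by
  rw [X3_Y3_Y3]; group

theorem s1_inv_eq : (s 1)⁻¹ = C3 ^ (-1 : ℤ) * (X3 * Y3) := by
  rw [X3_Y3]; group

theorem s1_eq : s 1 = C3 ^ (-1 : ℤ) * (Y3 * (Y3 * X3)) := by
  have h : Y3 * s 1 = X3 := by rw [← X3_inv]; group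
  rw [← h, ← Y3_cube]; group

theorem s0_inv_eq : (s 0)⁻¹ = C3 ^ (-1 : ℤ) * (Y3 * X3) := by
  have h : C3 ^ (-1 : ℤ) * (Y3 * X3) * s 0 = 1 := by
    rw [mul_assoc, mul_assoc, X3_pos, ← mul_assoc Y3, Y3_cube]; group
  exact inv_eq_of_mul_eq_one_left h

theorem NF_all {g : Binf} (h : g ∈ B 3) : NF g := by
  unfold B at h
  induction h using Subgroup.closure_induction_left with
  | one => exact NF_one
  | mul_left x hx y _ hy =>
    obtain ⟨i, hi, rfl⟩ := hx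
    obtain h0 | h0 : i = 0 ∨ i = 1 := by omega
    · subst h0
      rw [s0_eq, mul_assoc, mul_assoc, mul_assoc]
      exact NF_C _ (NF_X (NF_Y (NF_Y hy)))
    · subst h0
      rw [s1_eq, mul_assoc, mul_assoc, mul_assoc]
      exact NF_C _ (NF_Y (NF_Y (NF_X hy)))
  | inv_mul_cancel x hx y _ hy =>
    obtain ⟨i, hi, rfl⟩ := hx
    obtain h0 | h0 : i = 0 ∨ i = 1 := by omega
    · subst h0
      rw [s0_inv_eq, mul_assoc, mul_assoc]
      exact NF_C _ (NF_Y (NF_X hy))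
    · subst h0
      rw [s1_inv_eq, mul_assoc, mul_assoc]
      exact NF_C _ (NF_X (NF_Y hy))

/-! ### The action on differences -/

def d1 (v : V) : ℤ := v 0 - v 1
def d2 (v : V) : ℤ := v 1 - v 2

theorem d_s0 (v : V) : d1 (Phi (s 0) v) = d1 v ∧ d2 (Phi (s 0) v) = d1 v + d2 v := by
  rw [Phi_s, S_apply]
  constructor <;> simp [d1, d2, fw]
  ring

theorem d_s1 (v : V) : d1 (Phi (s 1) v) = d1 v - d2 v ∧ d2 (Phi (s 1) v) = d2 v := by
  rw [Phi_s, S_apply]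
  constructor <;> simp [d1, d2, fw] <;> ring

theorem d_s1_inv (v : V) : d1 (Phi (s 1)⁻¹ v) = d1 v + d2 v ∧ d2 (Phi (s 1)⁻¹ v) = d2 v := by
  rw [map_inv, Phi_s, S_inv_apply]
  constructor <;> simp [d1, d2, bw] <;> ring

theorem d_Y (v : V) : d1 (Phi Y3 v) = - d2 v ∧ d2 (Phi Y3 v) = d1 v + d2 v := by
  rw [Y3, map_mul, Equiv.Perm.mul_apply, (d_s1 _).1, (d_s1 _).2, (d_s0 _).1, (d_s0 _).2]
  constructor <;> ring

theorem d_X (v : V) : d1 (Phi X3 v) = - d2 v ∧ d2 (Phi X3 v) = d1 v := by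
  rw [X3, map_mul, map_mul, Equiv.Perm.mul_apply, Equiv.Perm.mul_apply, (d_s1 _).1, (d_s1 _).2,
    (d_s0 _).1, (d_s0 _).2, (d_s1 _).1, (d_s1 _).2]
  constructor <;> ring

theorem d_C (v : V) : d1 (Phi C3 v) = - d1 v ∧ d2 (Phi C3 v) = - d2 v := by
  rw [C3, map_mul, Equiv.Perm.mul_apply, (d_X _).1, (d_X _).2, (d_X _).2, (d_X _).1]
  exact ⟨rfl, rfl⟩

theorem d_Cpow (k : ℤ) : ∃ e : ℤ, (e = 1 ∨ e = -1) ∧
    ∀ v, d1 (Phi (C3 ^ k) v) = e * d1 v ∧ d2 (Phi (C3 ^ k) v) = e * d2 v := by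
  induction k using Int.induction_on with
  | zero => exact ⟨1, Or.inl rfl, fun v => by simp⟩
  | succ k ih =>
    obtain ⟨e, he, h⟩ := ih
    refine ⟨-e, by omega, fun v => ?_⟩
    rw [zpow_add_one, map_mul, Equiv.Perm.mul_apply, (h _).1, (h _).2, (d_C _).1, (d_C _).2]
    constructor <;> ring
  | pred k ih =>
    obtain ⟨e, he, h⟩ := ih
    refine ⟨-e, by omega, fun v => ?_⟩
    have h1 := h v
    have h2 : C3 ^ (-(k : ℤ)) = C3 ^ (-(k : ℤ) - 1) * C3 := by rw [← zpow_add_one]; simp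
    have h3 : ∀ u, Phi (C3 ^ (-(k : ℤ))) u = Phi (C3 ^ (-(k : ℤ) - 1)) (Phi C3 u) := by
      intro u; rw [h2, map_mul, Equiv.Perm.mul_apply]
    have h4 := h ((Phi C3)⁻¹ v)
    rw [h3, show Phi C3 ((Phi C3)⁻¹ v) = v from (Phi C3).apply_symm_apply v] at h4
    have h5 := d_C ((Phi C3)⁻¹ v)
    rw [show Phi C3 ((Phi C3)⁻¹ v) = v from (Phi C3).apply_symm_apply v] at h5
    rw [h4.1, h4.2, h5.1, h5.2]
    constructor <;> ring

theorem d_val (w : List Bool) : ∃ p q r t : ℤ, 1 ≤ p ∧ 1 ≤ t ∧ 0 ≤ q ∧ 0 ≤ r ∧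
    (w = [] ∨ 1 ≤ q + r) ∧ ∀ v, d1 (Phi (val w) v) = p * d1 v + q * d2 v ∧
      d2 (Phi (val w) v) = r * d1 v + t * d2 v := by
  induction w with
  | nil =>
    exact ⟨1, 0, 0, 1, by omega, by omega, by omega, by omega, Or.inl rfl, fun v => by simp [val]⟩
  | cons l w ih =>
    obtain ⟨p, q, r, t, hp, ht, hq, hr, -, h⟩ := ih
    cases l with
    | true =>
      refine ⟨p + r, q + t, r, t, by omega, by omega, by omega, by omega, Or.inr (by omega),
        fun v => ?_⟩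
      rw [val, map_mul, Equiv.Perm.mul_apply, (d_s1_inv _).1, (d_s1_inv _).2, (h v).1, (h v).2]
      constructor <;> ring
    | false =>
      refine ⟨p, q, p + r, q + t, by omega, by omega, by omega, by omega, Or.inr (by omega),
        fun v => ?_⟩
      rw [val, map_mul, Equiv.Perm.mul_apply, (d_s0 _).1, (d_s0 _).2, (h v).1, (h v).2]
      constructor <;> ring

theorem faithful {g : Binf} (hg : g ∈ B 3) (h1 : Phi g = 1) (h2 : ex g = 1) : g = 1 := by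
  obtain ⟨k, i, j, w, hi, hj, rfl⟩ := NF_all hg
  obtain ⟨e, he, hC⟩ := d_Cpow k
  obtain ⟨p, q, r, t, hp, ht, hq, hr, hw, hW⟩ := d_val w
  have e1 := congrArg (fun P => d1 (P (cons 1 (fun _ => 0)))) h1
  have e2 := congrArg (fun P => d2 (P (cons 1 (fun _ => 0)))) h1
  have e3 := congrArg (fun P => d1 (P (cons 1 (cons 1 (fun _ => 0))))) h1
  have e4 := congrArg (fun P => d2 (P (cons 1 (cons 1 (fun _ => 0))))) h1
  have u1 : d1 (cons 1 (fun _ => 0)) = 1 := rfl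
  have u2 : d2 (cons 1 (fun _ => 0)) = 0 := rfl
  have u3 : d1 (cons 1 (cons 1 (fun _ => 0))) = 0 := rfl
  have u4 : d2 (cons 1 (cons 1 (fun _ => 0))) = 1 := rfl
  have main : i = 0 ∧ j = 0 ∧ w = [] := by
    obtain h0 | h0 | h0 : i = 0 ∨ i = 1 ∨ i = 2 := by omega
    all_goals obtain h3 | h3 : j = 0 ∨ j = 1 := by omega
    all_goals subst h0
    all_goals subst h3
    all_goals
      simp only [map_mul, Equiv.Perm.mul_apply, (hC _).1, (hC _).2, pow_zero, pow_one, pow_two,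
        map_one, Equiv.Perm.one_apply, (d_Y _).1, (d_Y _).2, (hW _).1, (hW _).2, (d_X _).1,
        (d_X _).2, u1, u2, u3, u4] at e1 e2 e3 e4
      obtain rfl | rfl := he
    all_goals first | omega | (refine ⟨rfl, rfl, ?_⟩; rcases hw with hw | hw; exact hw; omega)
  obtain ⟨rfl, rfl, rfl⟩ := main
  simp only [val, pow_zero, mul_one] at h2 ⊢
  rw [map_zpow, C3, X3] at h2
  simp only [map_mul, ex_s] at h2
  have h3 := congrArg Multiplicative.toAdd h2
  simp only [toAdd_zpow, toAdd_mul, toAdd_ofAdd, toAdd_one, smul_eq_mul] at h3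
  have : k = 0 := by omega
  rw [this, zpow_zero]

end Pool.Agent.K7.H32.SB
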