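import Pool.Agent.K7.H32.SB.Faith

/-!
# Counting special braids
-/

set_option autoImplicit false

namespace Pool.Agent.K7.H32.SB

/-- the sequence `0, 1, 2, …` -/
def v0 : V := fun i => (i : ℤ)

/-- a numerical invariant that separates the ten braids -/
def sg (z : Binf) : ℤ := Phi z v0 0 + 100 * Phi z v0 1 + 10000 * Phi z v0 2

theorem special_s0 : Special (s 0) := by
  have h := Special.op Special.one Special.one
  simpa [op] using h

theorem special_r3 : Special (s 1 * s 0) := by
  have h := Special.op Special.one special_s0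
  simpa [op] using h

theorem special_q : Special (s 0 * s 0 * (s 1)⁻¹) := by
  have h := Special.op special_s0 Special.one
  simpa [op] using h

theorem special_r4 : Special (s 2 * s 1 * s 0) := by
  have h := Special.op Special.one special_r3
  simpa [op] using h

/-- ten special braids -/
def ten : Fin 10 → Binf := ![1, s 0, s 1 * s 0, s 0 * s 0 * (s 1)⁻¹, s 2 * s 1 * s 0,
  op (s 0 * s 0 * (s 1)⁻¹) 1, op (s 0 * s 0 * (s 1)⁻¹) (s 0), op (s 1 * s 0) 1,
  op (s 1 * s 0) (s 0), op (s 1 * s 0) (s 0 * s 0 * (s 1)⁻¹)]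

theorem ten_special (i : Fin 10) : Special (ten i) := by
  fin_cases i
  · exact Special.one
  · exact special_s0
  · exact special_r3
  · exact special_q
  · exact special_r4
  · exact Special.op special_q Special.one
  · exact Special.op special_q special_s0
  · exact Special.op special_r3 Special.one
  · exact Special.op special_r3 special_s0
  · exact Special.op special_r3 special_q

theorem m0 : s 0 ∈ B 4 := s_mem (by omega)
theorem m1 : s 1 ∈ B 4 := s_mem (by omega)
theorem m2 : s 2 ∈ B 4 := s_mem (by omega)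

theorem ten_mem (i : Fin 10) : ten i ∈ B 4 := by
  have h1 : (s 1)⁻¹ ∈ B 4 := inv_mem m1
  have h2 : (s 2)⁻¹ ∈ B 4 := inv_mem m2
  have hop : ∀ a b : Binf, a ∈ B 3 → b ∈ B 3 → op a b ∈ B 4 := by
    intro a b ha hb
    exact mul_mem (mul_mem (mul_mem (B_mono (by omega) ha) (sh_mem hb)) m0)
      (inv_mem (sh_mem ha))
  have k0 : s 0 ∈ B 3 := s_mem (by omega)
  have k1 : s 1 ∈ B 3 := s_mem (by omega)
  have kr : s 1 * s 0 ∈ B 3 := mul_mem k1 k0
  have kq : s 0 * s 0 * (s 1)⁻¹ ∈ B 3 := mul_mem (mul_mem k0 k0) (inv_mem k1)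
  fin_cases i
  · exact one_mem _
  · exact m0
  · exact mul_mem m1 m0
  · exact mul_mem (mul_mem m0 m0) h1
  · exact mul_mem (mul_mem m2 m1) m0
  · exact hop _ _ kq (one_mem _)
  · exact hop _ _ kq k0
  · exact hop _ _ kr (one_mem _)
  · exact hop _ _ kr k0
  · exact hop _ _ kr kq

theorem sg_ten (i : Fin 10) : sg (ten i) =
    (![20100, 19999, -201, 29796, -30201, 98881, 49391, -31106, -30601, -30198] : Fin 10 → ℤ) i := by
  fin_cases i <;>
    simp [sg, ten, op, Phi_s, S_apply, S_inv_apply, fw, bw, v0, Equiv.Perm.mul_apply, map_mul,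
      map_inv, mul_inv_rev]

theorem ten_injective : Function.Injective ten := by
  intro i j h
  have h1 := sg_ten i
  rw [h, sg_ten j] at h1
  revert h1
  fin_cases i <;> fin_cases j <;> simp

theorem sub3 {z : Binf} (hz : z ∈ SpecialIn 3) :
    z = 1 ∨ z = s 0 ∨ z = s 1 * s 0 ∨ z = s 0 * s 0 * (s 1)⁻¹ := by
  obtain ⟨h1, h2⟩ := hz
  obtain ⟨w, hw, hP, hE⟩ := class3 h1 (InG_Phi h2)
  have k0 : s 0 ∈ B 3 := s_mem (by omega)
  have k1 : s 1 ∈ B 3 := s_mem (by omega)
  have hwB : w ∈ B 3 := by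
    rcases hw with rfl | rfl | rfl | rfl
    · exact one_mem _
    · exact k0
    · exact mul_mem k1 k0
    · exact mul_mem (mul_mem k0 k0) (inv_mem k1)
  have h3 : z * w⁻¹ = 1 := by
    apply faithful (mul_mem h2 (inv_mem hwB))
    · rw [map_mul, map_inv, hP, mul_inv_cancel]
    · rw [map_mul, map_inv, hE, mul_inv_cancel]
  rw [mul_inv_eq_one.1 h3]
  exact hw

theorem not_mem2 : s 1 * s 0 ∉ B 2 := by
  intro h
  have h1 := (InG_Phi h).1 v0 2 (by omega)
  simp [v0, S_apply, fw] at h1

theorem not_mem2' : s 0 * s 0 * (s 1)⁻¹ ∉ B 2 := by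
  intro h
  have h1 := (InG_Phi h).1 v0 2 (by omega)
  rw [map_mul, map_mul, map_inv, Phi_s, Phi_s, Equiv.Perm.mul_apply, Equiv.Perm.mul_apply,
    S_inv_apply, S_apply, S_apply] at h1
  simp [v0, fw, bw] at h1

theorem not_mem1 : s 0 ∉ B 1 := by
  intro h
  have h1 := (InG_Phi h).1 v0 1 (by omega)
  simp [v0, S_apply, fw] at h1

theorem set3 : SpecialIn 3 = {1, s 0, s 1 * s 0, s 0 * s 0 * (s 1)⁻¹} := by
  have k0 : s 0 ∈ B 3 := s_mem (by omega)
  have k1 : s 1 ∈ B 3 := s_mem (by omega)
  ext z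
  constructor
  · intro hz
    simpa using sub3 hz
  · intro hz
    rcases hz with rfl | rfl | rfl | rfl
    · exact ⟨Special.one, one_mem _⟩
    · exact ⟨special_s0, k0⟩
    · exact ⟨special_r3, mul_mem k1 k0⟩
    · exact ⟨special_q, mul_mem (mul_mem k0 k0) (inv_mem k1)⟩

theorem set2 : SpecialIn 2 = {1, s 0} := by
  ext z
  constructor
  · intro hz
    rcases sub3 ⟨hz.1, B_mono (by omega) hz.2⟩ with rfl | rfl | rfl | rfl
    · simp
    · simp
    · exact absurd hz.2 not_mem2
    · exact absurd hz.2 not_mem2'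
  · intro hz
    rcases hz with rfl | rfl
    · exact ⟨Special.one, one_mem _⟩
    · exact ⟨special_s0, s_mem (by omega)⟩

theorem set1 : SpecialIn 1 = {1} := by
  ext z
  constructor
  · intro hz
    have h : z ∈ SpecialIn 2 := ⟨hz.1, B_mono (by omega) hz.2⟩
    rw [set2] at h
    rcases h with rfl | rfl
    · rfl
    · exact absurd hz.2 not_mem1
  · rintro rfl
    exact ⟨Special.one, one_mem _⟩

theorem count1 : (SpecialIn 1).ncard = 1 := by rw [set1, Set.ncard_singleton]

theorem ne_of_ten {i j : Fin 10} (h : i ≠ j) : ten i ≠ ten j := fun h2 => h (ten_injective h2)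

theorem count2 : (SpecialIn 2).ncard = 2 := by
  rw [set2, Set.ncard_pair]
  exact ne_of_ten (i := 0) (j := 1) (by decide)

theorem count3 : (SpecialIn 3).ncard = 4 := by
  have h : SpecialIn 3 = ten '' {0, 1, 2, 3} := by
    rw [set3]
    simp [Set.image_insert_eq, ten]
  rw [h, Set.ncard_image_of_injective _ ten_injective]
  have h2 : ({0, 1, 2, 3} : Set (Fin 10)) = (({0, 1, 2, 3} : Finset (Fin 10)) : Set (Fin 10)) := by
    simp
  rw [h2, Set.ncard_coe_finset]
  decide

theorem count4 : 10 ≤ (SpecialIn 4).encard := by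
  have h : Set.range ten ⊆ SpecialIn 4 := by
    rintro z ⟨i, rfl⟩
    exact ⟨ten_special i, ten_mem i⟩
  refine le_trans (le_trans ?_ ten_injective.encard_range) (Set.encard_le_encard h)
  simp

theorem count5 (n : ℕ) (hn : 5 ≤ n) : (SpecialIn n).Infinite := by
  refine (Set.infinite_range_of_injective y_injective).mono ?_
  rintro z ⟨k, rfl⟩
  exact ⟨y_special k, B_mono hn (y_mem k)⟩

end Pool.Agent.K7.H32.SB
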