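import Pool.Agent.K7.H32.SB.Sp
import Pool.Agent.K7.H32.SB.Final

/-!
# Strand deletion and the exact number of special braids in `B_4`
-/

set_option autoImplicit false

namespace Pool.Agent.K7.H32.SB

/-! ### Deleting a strand -/

/-- the crossing that remains after the strand at position `p` is deleted -/
def fd (j p : ℕ) : Binf := if p < j then s (j - 1) else if p ≤ j + 1 then 1 else s j

/-- the new position of the strand -/
def pd (j p : ℕ) : ℕ := if p = j then j + 1 else if p = j + 1 then j else p

theorem fd_lt {j p : ℕ} (h : p < j) : fd j p = s (j - 1) := by rw [fd, if_pos h]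
theorem fd_mid {j p : ℕ} (h : j ≤ p) (h' : p ≤ j + 1) : fd j p = 1 := by
  rw [fd, if_neg (by omega), if_pos h']
theorem fd_gt {j p : ℕ} (h : j + 1 < p) : fd j p = s j := by
  rw [fd, if_neg (by omega), if_neg (by omega)]
theorem pd_other {j p : ℕ} (h : p < j ∨ j + 1 < p) : pd j p = p := by
  rw [pd, if_neg (by omega), if_neg (by omega)]
theorem pd_one {j p : ℕ} (h : p = j) : pd j p = j + 1 := by
  rw [pd, if_pos h]
theorem pd_two {j p : ℕ} (h : p = j + 1) : pd j p = j := by
  rw [pd, if_neg (by omega), if_pos h]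

theorem pd_pd (j p : ℕ) : pd j (pd j p) = p := by
  rcases lt_trichotomy p j with h | h | h
  · rw [pd_other (Or.inl h), pd_other (Or.inl h)]
  · rw [pd_one h, pd_two rfl, h]
  · by_cases h2 : p = j + 1
    · rw [pd_two h2, pd_one rfl, h2]
    · rw [pd_other (j := j) (p := p) (by omega), pd_other (j := j) (p := p) (by omega)]

theorem fd_pd (j p : ℕ) : fd j (pd j p) = fd j p := by
  rcases lt_trichotomy p j with h | h | h
  · rw [pd_other (Or.inl h)]
  · rw [pd_one h, fd_mid (by omega) (by omega), fd_mid (by omega) (by omega)]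
  · by_cases h2 : p = j + 1
    · rw [pd_two h2, fd_mid (by omega) (by omega), fd_mid (by omega) (by omega)]
    · rw [pd_other (Or.inr (by omega))]

/-- the generator acts on pairs (braid, position) -/
def D (j : ℕ) : Equiv.Perm (Binf × ℕ) where
  toFun x := (fd j x.2 * x.1, pd j x.2)
  invFun x := ((fd j x.2)⁻¹ * x.1, pd j x.2)
  left_inv x := by
    apply Prod.ext
    · simp only [fd_pd, inv_mul_cancel_left]
    · exact pd_pd _ _
  right_inv x := by
    apply Prod.ext
    · simp only [fd_pd, mul_inv_cancel_left]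
    · exact pd_pd _ _

theorem D_apply (j : ℕ) (h : Binf) (p : ℕ) : D j (h, p) = (fd j p * h, pd j p) := rfl

theorem D_comm (i j : ℕ) (hij : i + 2 ≤ j) : D i * D j = D j * D i := by
  apply Equiv.ext
  rintro ⟨h, p⟩
  rw [Equiv.Perm.mul_apply, Equiv.Perm.mul_apply, D_apply, D_apply, D_apply, D_apply]
  have hc : ∀ i j : ℕ, i + 2 ≤ j → s i * (s j * h) = s j * (s i * h) := fun i j h' => by
    rw [← mul_assoc, s_comm i j h', mul_assoc]
  by_cases h1 : p < i
  · rw [pd_other (j := j) (p := p) (by omega), pd_other (j := i) (p := p) (by omega),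
      pd_other (j := j) (p := p) (by omega), fd_lt (j := i) (p := p) (by omega),
      fd_lt (j := j) (p := p) (by omega), hc (i - 1) (j - 1) (by omega)]
  · by_cases h2 : p ≤ i + 1
    · have h3 : pd i p < j := by rw [pd]; split_ifs <;> omega
      rw [pd_other (j := j) (p := p) (by omega), pd_other (j := j) (p := pd i p) (by omega),
        fd_mid (j := i) (p := p) (by omega) (by omega), fd_lt (j := j) (p := p) (by omega),
        fd_lt (j := j) (p := pd i p) h3, one_mul, one_mul]
    · by_cases h3 : p < j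
      · rw [pd_other (j := j) (p := p) (by omega), pd_other (j := i) (p := p) (by omega),
          pd_other (j := j) (p := p) (by omega), fd_gt (j := i) (p := p) (by omega),
          fd_lt (j := j) (p := p) (by omega)]
        by_cases h4 : i + 2 ≤ j - 1
        · rw [hc i (j - 1) h4]
        · omega
      · by_cases h4 : p ≤ j + 1
        · have h5 : i + 1 < pd j p := by rw [pd]; split_ifs <;> omega
          rw [pd_other (j := i) (p := p) (by omega), pd_other (j := i) (p := pd j p) (by omega),
            fd_mid (j := j) (p := p) (by omega) (by omega), fd_gt (j := i) (p := p) (by omega),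
            fd_gt (j := i) (p := pd j p) h5, one_mul, one_mul]
        · rw [pd_other (j := j) (p := p) (by omega), pd_other (j := i) (p := p) (by omega),
            pd_other (j := j) (p := p) (by omega), fd_gt (j := i) (p := p) (by omega),
            fd_gt (j := j) (p := p) (by omega), hc i j hij]

theorem D_braid (i : ℕ) : D i * D (i + 1) * D i = D (i + 1) * D i * D (i + 1) := by
  apply Equiv.ext
  rintro ⟨h, p⟩
  simp only [Equiv.Perm.mul_apply, D_apply]
  have hb : ∀ j : ℕ, s j * (s (j + 1) * (s j * h)) = s (j + 1) * (s j * (s (j + 1) * h)) := by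
    intro j
    rw [← mul_assoc, ← mul_assoc, s_braid, mul_assoc, mul_assoc]
  by_cases h1 : p < i
  · simp only [pd_other (j := i + 1) (p := p) (by omega), pd_other (j := i) (p := p) (by omega),
      fd_lt (j := i) (p := p) (by omega), fd_lt (j := i + 1) (p := p) (by omega)]
    obtain ⟨j, rfl⟩ : ∃ j, i = j + 1 := ⟨i - 1, by omega⟩
    have h3 := hb j
    simp only [Nat.add_sub_cancel] at h3 ⊢
    rw [h3]
  · by_cases h2 : p = i
    · subst h2
      rw [pd_one (j := p) (p := p) rfl, pd_one (j := p + 1) (p := p + 1) rfl,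
        pd_other (j := p + 1) (p := p) (by omega), pd_one (j := p) (p := p) rfl,
        pd_one (j := p + 1) (p := p + 1) rfl, pd_other (j := p) (p := p + 1 + 1) (by omega),
        fd_mid (j := p) (p := p) (by omega) (by omega),
        fd_mid (j := p + 1) (p := p + 1) (by omega) (by omega),
        fd_gt (j := p) (p := p + 1 + 1) (by omega), fd_lt (j := p + 1) (p := p) (by omega)]
      simp
    · by_cases h3 : p = i + 1
      · subst h3
        rw [pd_two (j := i) (p := i + 1) rfl, pd_other (j := i + 1) (p := i) (by omega),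
          pd_one (j := i) (p := i) rfl, pd_one (j := i + 1) (p := i + 1) rfl,
          pd_other (j := i) (p := i + 1 + 1) (by omega),
          pd_two (j := i + 1) (p := i + 1 + 1) rfl,
          fd_mid (j := i) (p := i + 1) (by omega) (by omega),
          fd_lt (j := i + 1) (p := i) (by omega),
          fd_mid (j := i) (p := i) (by omega) (by omega),
          fd_mid (j := i + 1) (p := i + 1) (by omega) (by omega),
          fd_gt (j := i) (p := i + 1 + 1) (by omega),
          fd_mid (j := i + 1) (p := i + 1 + 1) (by omega) (by omega)]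
        simp
      · by_cases h4 : p = i + 1 + 1
        · subst h4
          rw [pd_other (j := i) (p := i + 1 + 1) (by omega),
            pd_two (j := i + 1) (p := i + 1 + 1) rfl, pd_two (j := i) (p := i + 1) rfl,
            pd_other (j := i + 1) (p := i) (by omega),
            fd_gt (j := i) (p := i + 1 + 1) (by omega),
            fd_mid (j := i + 1) (p := i + 1 + 1) (by omega) (by omega),
            fd_mid (j := i) (p := i + 1) (by omega) (by omega),
            fd_lt (j := i + 1) (p := i) (by omega)]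
          simp
        · simp only [pd_other (j := i) (p := p) (by omega),
            pd_other (j := i + 1) (p := p) (by omega), fd_gt (j := i) (p := p) (by omega),
            fd_gt (j := i + 1) (p := p) (by omega)]
          rw [hb i]

/-- the action that deletes a strand -/
def Del : Binf →* Equiv.Perm (Binf × ℕ) := mkHom D D_comm D_braid

@[simp] theorem Del_s (i : ℕ) : Del (s i) = D i := mkHom_s _ _ _ _

theorem Del_sh (g : Binf) : ∀ h : Binf, Del (sh g) (h, 0) = (g * h, 0) := by
  have hg : g ∈ Subgroup.closure (Set.range (PresentedGroup.of (rels := Rels))) := by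
    rw [PresentedGroup.closure_range_of]; trivial
  induction hg using Subgroup.closure_induction with
  | mem x hx =>
    obtain ⟨i, rfl⟩ := hx
    intro h
    change Del (sh (s i)) (h, 0) = (s i * h, 0)
    rw [sh_s, Del_s, D_apply, fd_lt (by omega), pd_other (by omega), Nat.add_sub_cancel]
  | one => intro h; simp
  | mul x y _ _ hx hy =>
    intro h
    rw [map_mul, map_mul, Equiv.Perm.mul_apply, hy, hx, mul_assoc]
  | inv x _ hx =>
    intro h
    rw [map_inv, map_inv, Equiv.Perm.inv_eq_iff_eq, hx, mul_inv_cancel_left]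

theorem Del_mem {N : ℕ} {g : Binf} (hg : g ∈ B N) : ∀ (h : Binf) (p : ℕ),
    (p < N ↔ (Del g (h, p)).2 < N) ∧
      (p < N → ∃ k ∈ B (N - 1), (Del g (h, p)).1 = k * h) := by
  unfold B at hg
  induction hg using Subgroup.closure_induction with
  | mem x hx =>
    obtain ⟨i, hi, rfl⟩ := hx
    intro h p
    rw [Del_s, D_apply]
    refine ⟨?_, fun hp => ⟨fd i p, ?_, rfl⟩⟩
    · simp only [pd]
      split_ifs <;> omega
    · rw [fd]
      split_ifs
      · exact s_mem (by omega)
      · exact one_mem _
      · exact s_mem (by omega)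
  | one =>
    intro h p
    rw [map_one, Equiv.Perm.one_apply]
    exact ⟨Iff.rfl, fun _ => ⟨1, one_mem _, (one_mul h).symm⟩⟩
  | mul x y _ _ hx hy =>
    intro h p
    rw [map_mul, Equiv.Perm.mul_apply]
    obtain ⟨h1, h2⟩ := hy h p
    generalize Del y (h, p) = q at h1 h2
    obtain ⟨h', p'⟩ := q
    obtain ⟨h3, h4⟩ := hx h' p'
    refine ⟨h1.trans h3, fun hp => ?_⟩
    obtain ⟨k, hk, hk'⟩ := h2 hp
    obtain ⟨l, hl, hl'⟩ := h4 (h1.1 hp)
    refine ⟨l * k, mul_mem hl hk, ?_⟩
    have hk2 : h' = k * h := hk'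
    rw [hl', hk2, mul_assoc]
  | inv x _ hx =>
    intro h p
    obtain ⟨q, hq⟩ : ∃ q, q = Del x⁻¹ (h, p) := ⟨_, rfl⟩
    rw [← hq]
    obtain ⟨h', p'⟩ := q
    have hq' : Del x (h', p') = (h, p) := by
      rw [hq, map_inv]
      exact (Del x).apply_symm_apply _
    obtain ⟨h1, h2⟩ := hx h' p'
    rw [hq'] at h1 h2
    refine ⟨h1.symm, fun hp => ?_⟩
    obtain ⟨k, hk, hk'⟩ := h2 (h1.2 hp)
    refine ⟨k⁻¹, inv_mem hk, ?_⟩
    have hk2 : h = k * h' := hk'
    rw [hk2, inv_mul_cancel_left]

/-- if a shifted braid uses `N` strands then the braid uses `N - 1` strands -/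
theorem unsh_mem {N : ℕ} (hN : 1 ≤ N) {g : Binf} (h : sh g ∈ B N) : g ∈ B (N - 1) := by
  obtain ⟨-, h2⟩ := Del_mem h 1 0
  obtain ⟨k, hk, hk'⟩ := h2 (by omega)
  rw [Del_sh, mul_one, mul_one] at hk'
  rw [show g = k from hk']
  exact hk

/-! ### Right combs -/

theorem tau_mem (k : ℕ) : tau k ∈ B (k + 1) := by
  induction k with
  | zero => exact one_mem _
  | succ k ih => exact mul_mem (s_mem (by omega)) (B_mono (by omega) ih)

theorem tau_comm {k j : ℕ} (h : k < j) : s j * tau k = tau k * s j := by
  induction k with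
  | zero => simp [tau]
  | succ k ih =>
    rw [tau, ← mul_assoc, ← s_comm k j (by omega), mul_assoc, ih (by omega), mul_assoc]

theorem s_tau {i k : ℕ} (h : i + 1 < k) : s i * tau k = tau k * s (i + 1) := by
  induction k with
  | zero => omega
  | succ k ih =>
    by_cases hk : i + 1 < k
    · rw [tau, ← mul_assoc, s_comm i k (by omega), mul_assoc, ih hk, mul_assoc]
    · obtain rfl : k = i + 1 := by omega
      rw [tau, tau]
      calc s i * (s (i + 1) * (s i * tau i)) = s i * s (i + 1) * s i * tau i := by group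
        _ = s (i + 1) * s i * (s (i + 1) * tau i) := by rw [s_braid]; group
        _ = s (i + 1) * s i * (tau i * s (i + 1)) := by rw [tau_comm (by omega)]
        _ = s (i + 1) * (s i * tau i) * s (i + 1) := by group

theorem mul_tau {k : ℕ} {g : Binf} (h : g ∈ B k) : g * tau k = tau k * sh g := by
  unfold B at h
  induction h using Subgroup.closure_induction with
  | mem x hx =>
    obtain ⟨i, hi, rfl⟩ := hx
    rw [sh_s, s_tau hi]
  | one => simp
  | mul x y _ _ hx hy => rw [mul_assoc, hy, ← mul_assoc, hx, mul_assoc, map_mul]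
  | inv x _ hx =>
    rw [map_inv, inv_mul_eq_iff_eq_mul, ← mul_assoc, hx, mul_inv_cancel_right]

theorem dichotomy (l : List Binf) (h : comb l ∈ B 4) :
    comb l = tau l.length ∨ (pr l ∈ B 3 ∧ l.length ≤ 2) := by
  classical
  by_cases hk : pr l ∈ B l.length
  · left
    rw [comb_eq, mul_tau hk, mul_inv_cancel_right]
  · right
    have hex : ∃ a, pr l ∈ B a := exists_mem _
    obtain ⟨a, ha, hmin⟩ : ∃ a, pr l ∈ B a ∧ ∀ b < a, pr l ∉ B b :=
      ⟨Nat.find hex, Nat.find_spec hex, fun b hb => Nat.find_min hex hb⟩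
    have hka : l.length < a := by
      by_contra hc
      exact hk (B_mono (by omega) ha)
    have ha3 : a ≤ 3 := by
      by_contra hc
      have h1 : sh (pr l) = (comb l)⁻¹ * (pr l * tau l.length) := by
        rw [comb_eq]; group
      have h2 : sh (pr l) ∈ B a := by
        rw [h1]
        exact mul_mem (inv_mem (B_mono (by omega) h))
          (mul_mem ha (B_mono (by omega) (tau_mem l.length)))
      exact hmin (a - 1) (by omega) (unsh_mem (by omega) h2)
    exact ⟨B_mono ha3 ha, by omega⟩

theorem op_one_special {x : Binf} (hx : x = 1 ∨ x = s 0 ∨ x = s 1 * s 0 ∨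
    x = s 0 * s 0 * (s 1)⁻¹) : op x 1 ∈ Set.range ten := by
  rcases hx with rfl | rfl | rfl | rfl
  · exact ⟨1, by simp [ten, op]⟩
  · exact ⟨3, by simp [ten, op]⟩
  · exact ⟨7, rfl⟩
  · exact ⟨5, rfl⟩

/-- the value `x ∧ (y ∧ 1)` is constant along a chain -/
theorem ch_value (p q : Sp) (n : ℕ) :
    op (OLD.ch p q (n + 1)).v (op (OLD.ch p q n).v 1) = op p.v (op q.v 1) := by
  have h := (OLD.ch_eqv p q n).act 1
  exact congrArg Sp.v h

theorem Cls_value {x y : Sp} (h : OLD.Cls x y) : op x.v (op y.v 1) ∈ Set.range ten := by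
  have e1 : op 1 1 = s 0 := by simp [op]
  have e2 : op (s 0) 1 = s 0 * s 0 * (s 1)⁻¹ := by simp [op]
  have e3 : op 1 (s 0) = s 1 * s 0 := by simp [op]
  have e4 : op (s 0) (s 0) = s 1 * s 0 := by
    have h := op_ld 1 1 1
    rw [e1, e3] at h
    exact h.symm
  obtain ⟨n, ⟨rfl, rfl⟩ | ⟨rfl, rfl⟩ | ⟨rfl, rfl⟩ | ⟨rfl, rfl⟩⟩ := h
  · rw [ch_value]
    change op 1 (op 1 1) ∈ _
    rw [e1, e3]
    exact ⟨2, rfl⟩
  · rw [ch_value]
    change op (op (op 1 1) 1) (op 1 1) ∈ _
    rw [e1, e2]
    exact ⟨6, rfl⟩
  · rw [ch_value]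
    change op 1 (op (op 1 1) 1) ∈ _
    rw [op_ld 1 (op 1 1) 1, e1, e3]
    exact ⟨8, rfl⟩
  · rw [ch_value]
    change op (op 1 1) (op (op 1 1) 1) ∈ _
    rw [op_ld (op 1 1) (op 1 1) 1, e1, e4, e2]
    exact ⟨9, rfl⟩

theorem sub4 {z : Binf} (hz : z ∈ SpecialIn 4) : z ∈ Set.range ten := by
  obtain ⟨h1, h2⟩ := hz
  obtain ⟨l, hl, rfl⟩ := special_comb h1
  rcases dichotomy l h2 with h3 | ⟨h3, h4⟩
  · have hk : l.length < 4 := T_not_InG (by norm_num) (by rw [← h3]; exact InG_Phi h2)
    rw [h3]
    obtain h0 | h0 | h0 | h0 : l.length = 0 ∨ l.length = 1 ∨ l.length = 2 ∨ l.length = 3 := by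
      omega
    · rw [h0]; exact ⟨0, rfl⟩
    · rw [h0]; exact ⟨1, by simp [ten, tau]⟩
    · rw [h0]; exact ⟨2, by simp [ten, tau]⟩
    · rw [h0]; exact ⟨4, by simp [ten, tau, mul_assoc]⟩
  · match l, hl, h2, h3, h4 with
    | [], _, _, _, _ => exact ⟨0, rfl⟩
    | [x], hl, _, h3, _ =>
      have hp : pr [x] = x := by simp [pr]
      rw [hp] at h3
      have h5 := op_one_special (sub3 ⟨hl x (by simp), h3⟩)
      simp only [comb]
      exact h5
    | [x, y], hl, _, h3, _ =>
      have hp : pr [x, y] = x * sh y := by simp [pr]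
      rw [hp] at h3
      have hc : OLD.Cls (⟨x, hl x (by simp)⟩ : Sp) ⟨y, hl y (by simp)⟩ := Cls_of_mem h3
      have h5 := Cls_value hc
      simp only [comb]
      exact h5
    | x :: y :: w :: l, _, _, _, h4 =>
      exfalso
      simp only [List.length_cons] at h4
      omega

theorem set4 : SpecialIn 4 = Set.range ten := by
  apply Set.Subset.antisymm
  · intro z hz; exact sub4 hz
  · rintro z ⟨i, rfl⟩
    exact ⟨ten_special i, ten_mem i⟩

theorem count4_exact : (SpecialIn 4).ncard = 10 := by
  rw [set4, ← Set.image_univ, Set.ncard_image_of_injective _ ten_injective, Set.ncard_univ]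
  simp

end Pool.Agent.K7.H32.SB
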