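import Pool.Agent.K7.H32.SB.Defs

/-!
# The infinite family of special braids in `B_5`
-/

set_option autoImplicit false

namespace Pool.Agent.K7.H32.SB

/-- `a_0 = 1`, `a_1 = 1 ∧ 1`, `a_{k+2} = a_{k+1} ∧ a_k`. -/
def a : ℕ → Binf
  | 0 => 1
  | 1 => op 1 1
  | k + 2 => op (a (k + 1)) (a k)

theorem a_special : ∀ k, Special (a k)
  | 0 => Special.one
  | 1 => Special.op Special.one Special.one
  | k + 2 => Special.op (a_special (k + 1)) (a_special k)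

theorem a_mul (k : ℕ) : a (k + 1) * sh (a k) = s 0 ^ (k + 1) := by
  induction k with
  | zero => simp [a, op]
  | succ k ih =>
    have h : a (k + 1 + 1) = op (a (k + 1)) (a k) := rfl
    rw [h, op, inv_mul_cancel_right, ih, ← pow_succ]

theorem sh_a_mul (k : ℕ) : sh (a (k + 1)) * sh (sh (a k)) = s 1 ^ (k + 1) := by
  have h := congrArg sh (a_mul k)
  simpa using h

theorem sh2_a_mul (k : ℕ) : sh (sh (a (k + 1))) * sh (sh (sh (a k))) = s 2 ^ (k + 1) := by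
  have h := congrArg sh (sh_a_mul k)
  simpa using h

/-- The element `ρ_k = a_{k+3} · sh³(a_k)`. -/
def rho (k : ℕ) : Binf := a (k + 3) * sh (sh (sh (a k)))

theorem rho_eq (k : ℕ) : rho k = s 0 ^ (k + 3) * s 2 ^ (k + 1) * (s 1 ^ (k + 2))⁻¹ := by
  have h0 := a_mul (k + 2)
  have h1 := sh_a_mul (k + 1)
  have h2 := sh2_a_mul k
  have hc : ∀ n : ℕ, s 1 ^ n * sh (sh (sh (a k))) = sh (sh (sh (a k))) * s 1 ^ n := by
    intro n
    exact ((show Commute (s 1) (sh (sh (sh (a k)))) from comm1 _).pow_left n)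
  calc rho k = a (k + 3) * (sh (sh (sh (a k))) * s 1 ^ (k + 2)) * (s 1 ^ (k + 2))⁻¹ := by
        rw [rho]; group
    _ = a (k + 3) * (s 1 ^ (k + 2) * sh (sh (sh (a k)))) * (s 1 ^ (k + 2))⁻¹ := by rw [hc]
    _ = a (k + 3) * ((sh (a (k + 2)) * sh (sh (a (k + 1)))) * sh (sh (sh (a k)))) *
          (s 1 ^ (k + 2))⁻¹ := by rw [h1]
    _ = (a (k + 3) * sh (a (k + 2))) * (sh (sh (a (k + 1))) * sh (sh (sh (a k)))) *
          (s 1 ^ (k + 2))⁻¹ := by group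
    _ = _ := by rw [h0, h2]

theorem rho_mem (k : ℕ) : rho k ∈ B 4 := by
  rw [rho_eq]
  exact mul_mem (mul_mem (pow_mem (s_mem (by omega)) _) (pow_mem (s_mem (by omega)) _))
    (inv_mem (pow_mem (s_mem (by omega)) _))

/-- The special braids `y_k = a_{k+3} ∧ (1 ∧ ((1 ∧ a_k) ∧ 1))`. -/
def y (k : ℕ) : Binf := op (a (k + 3)) (op 1 (op (op 1 (a k)) 1))

theorem y_special (k : ℕ) : Special (y k) :=
  Special.op (a_special _) (Special.op Special.one
    (Special.op (Special.op Special.one (a_special _)) Special.one))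

theorem y_eq (k : ℕ) : y k = rho k * (s 2 * s 2 * (s 3)⁻¹ * s 1 * s 0) * (sh (rho k))⁻¹ := by
  have e1 : op (op 1 (a k)) 1 = sh (a k) * s 0 * s 0 * (s 1)⁻¹ * (sh (sh (a k)))⁻¹ := by
    simp only [op, one_mul, map_one, inv_one, mul_one, map_mul, sh_s, mul_inv_rev]
    group
  have e2 : op 1 (op (op 1 (a k)) 1) =
      sh (sh (a k)) * s 1 * s 1 * (s 2)⁻¹ * (sh (sh (sh (a k))))⁻¹ * s 0 := by
    rw [e1]
    simp only [op, one_mul, map_one, inv_one, mul_one, map_mul, map_inv, sh_s]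
  have c0 : (sh (sh (sh (sh (a k)))))⁻¹ * s 0 = s 0 * (sh (sh (sh (sh (a k)))))⁻¹ :=
    (comm0inv (sh (sh (a k)))).symm
  have c1 : (sh (sh (sh (sh (a k)))))⁻¹ * s 1 = s 1 * (sh (sh (sh (sh (a k)))))⁻¹ :=
    (comm1inv (sh (a k))).symm
  calc y k = a (k + 3) * sh (op 1 (op (op 1 (a k)) 1)) * s 0 * (sh (a (k + 3)))⁻¹ := rfl
    _ = a (k + 3) * (sh (sh (sh (a k))) * s 2 * s 2 * (s 3)⁻¹ *
          ((sh (sh (sh (sh (a k)))))⁻¹ * s 1)) * s 0 * (sh (a (k + 3)))⁻¹ := by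
        rw [e2]; simp only [map_mul, map_inv, sh_s]; group
    _ = a (k + 3) * (sh (sh (sh (a k))) * s 2 * s 2 * (s 3)⁻¹ *
          (s 1 * (sh (sh (sh (sh (a k)))))⁻¹)) * s 0 * (sh (a (k + 3)))⁻¹ := by rw [c1]
    _ = a (k + 3) * sh (sh (sh (a k))) * s 2 * s 2 * (s 3)⁻¹ * s 1 *
          ((sh (sh (sh (sh (a k)))))⁻¹ * s 0) * (sh (a (k + 3)))⁻¹ := by group
    _ = a (k + 3) * sh (sh (sh (a k))) * s 2 * s 2 * (s 3)⁻¹ * s 1 *
          (s 0 * (sh (sh (sh (sh (a k)))))⁻¹) * (sh (a (k + 3)))⁻¹ := by rw [c0]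
    _ = rho k * (s 2 * s 2 * (s 3)⁻¹ * s 1 * s 0) *
          (sh (a (k + 3)) * sh (sh (sh (sh (a k)))))⁻¹ := by rw [rho]; group
    _ = _ := by rw [rho, map_mul]

theorem y_mem (k : ℕ) : y k ∈ B 5 := by
  rw [y_eq]
  refine mul_mem (mul_mem (B_mono (by omega) (rho_mem k)) ?_) (inv_mem (sh_mem (rho_mem k)))
  exact mul_mem (mul_mem (mul_mem (mul_mem (s_mem (by omega)) (s_mem (by omega)))
    (inv_mem (s_mem (by omega)))) (s_mem (by omega))) (s_mem (by omega))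

end Pool.Agent.K7.H32.SB
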