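import Pool.Agent.K7.H32.SB.LDW

/-!
# The orbit of `(1, 1, 1)` under the partial action of the three-strand braid group
-/

set_option autoImplicit false

namespace Pool.Agent.K7.H32.SB

namespace OLD

variable {F : Type} [OLD F]

/-- the chain `q, p, p ∧ q, (p ∧ q) ∧ p, …` -/
def ch (p q : F) : ℕ → F
  | 0 => q
  | 1 => p
  | n + 2 => ch p q (n + 1) * ch p q n

theorem ch_zero (p q : F) : ch p q 0 = q := rfl
theorem ch_one (p q : F) : ch p q 1 = p := rfl
theorem ch_add_two (p q : F) (n : ℕ) : ch p q (n + 2) = ch p q (n + 1) * ch p q n := rfl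

theorem ch_shift (p q : F) : ∀ n, ch (p * q) p n = ch p q (n + 1)
  | 0 => rfl
  | 1 => rfl
  | n + 2 => by
    rw [ch_add_two, ch_shift p q (n + 1), ch_shift p q n]; rfl

theorem ch_eqv (p q : F) (n : ℕ) : Eqv [ch p q (n + 1), ch p q n] [p, q] := by
  induction n with
  | zero => exact Eqv.refl _
  | succ n ih => exact (eqv_swap _ _).trans ih

theorem ch_lt (p q : F) (n : ℕ) : ch p q (n + 1) < ch p q (n + 2) := lt_m _ _

theorem ch_le (p q : F) {m n : ℕ} (h : m ≤ n) : ch p q (m + 1) ≤ ch p q (n + 1) := by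
  induction n, h using Nat.le_induction with
  | base => exact le_rfl
  | succ n _ ih => exact ih.trans (ch_lt p q n).le

theorem ch_strict (p q : F) {m n : ℕ} (h : m < n) : ch p q (m + 1) < ch p q (n + 1) :=
  lt_of_lt_of_le (ch_lt p q m) (ch_le p q h)

theorem ch_comp (p q : F) (n : ℕ) : Lt [ch p q (n + 1)] [p, q] :=
  (lt_append [ch p q (n + 1)] (ch p q n)).trans_eqv (ch_eqv p q n)

theorem mul_ch (x p q : F) : ∀ n, x * ch p q n = ch (x * p) (x * q) n
  | 0 => rfl
  | 1 => rfl
  | n + 2 => by rw [ch_add_two, ld, mul_ch x p q (n + 1), mul_ch x p q n]; rfl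

theorem ch_inc (p q v : F) (n : ℕ) :
    Lt [ch p q (n + 1), ch p q n * v] [ch p q (n + 2), ch p q (n + 1) * v] :=
  (mul_lt_comp (ch p q n) v).shift [ch p q (n + 1)]

theorem ch_inc_le (p q v : F) {m n : ℕ} (h : m ≤ n) :
    Le [ch p q (m + 1), ch p q m * v] [ch p q (n + 1), ch p q n * v] := by
  induction n, h using Nat.le_induction with
  | base => exact Le.refl _
  | succ n _ ih => exact Or.inl (ih.trans_lt (ch_inc p q v n))

/-- the orbit -/
inductive R : F → F → F → Prop
  | one : R 1 1 1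
  | q : R ((1 * 1) * 1) 1 1
  | a {x y z : F} (h : R x y z) : R (x * y) x z
  | b {x y z : F} (h : R x y z) : R x (y * z) y
  | e {x z : F} (h : R x x z) : R ((x * (x * z)) * x) x (x * z)

/-- comparison of the second and third entries -/
inductive StA (X Y Z : F) : Prop
  | div (t : F) (h : Y = Z * t) (r : R X Z t)
  | eq (h : Y = Z)
  | lt (h : Y < Z) (v : F) (h1 : Z * v ≤ Y * Z) (h2 : Lt [Y, Z] [Z, v])
  | sep (v : F) (h1 : Z * v < Y) (h2 : Le [Y, Z * v] [Z, v])

/-- comparison of the first and second entries -/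
inductive StB (X Y Z : F) : Prop
  | div (t : F) (h : X = Y * t) (r : R Y t Z)
  | eq (h : X = Y)
  | lt (h : X < Y) (v : F) (h1 : Y * v ≤ X * Y) (h2 : Le [X * (Y * Z), Y * v] [Y, v])
      (h3 : Le [X, Y * Z] [Y, v])
  | sep (v : F) (h0 : Z ≤ v) (h1 : Y * v < X) (h2 : Le [X, Y * v] [Y, v])

/-- all comparisons along the two chains -/
structure Good (x y z : F) : Prop where
  A : ∀ k, StA (ch x y (k + 1)) (ch x y k) z
  B : ∀ k, StB x (ch y z (k + 1)) (ch y z k)

theorem R_chain_a {x y z : F} (h : R x y z) (n : ℕ) : R (ch x y (n + 1)) (ch x y n) z := by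
  induction n with
  | zero => exact h
  | succ n ih => exact ih.a

theorem R_chain_b {x y z : F} (h : R x y z) (n : ℕ) : R x (ch y z (n + 1)) (ch y z n) := by
  induction n with
  | zero => exact h
  | succ n ih => exact ih.b

theorem good_a {x y z : F} (hR : R x y z) (h : Good x y z) : Good (x * y) x z := by
  refine ⟨fun k => ?_, fun k => ?_⟩
  · rw [ch_shift, ch_shift]; exact h.A (k + 1)
  · rcases k with _ | j
    · exact StB.div y rfl hR
    · have h0 := h.A 0
      rw [zero_add, ch_one, ch_zero] at h0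
      -- abbreviations
      have hxz : x * z = ch x z 2 := rfl
      cases h0 with
      | div t ht r =>
        refine StB.div (ch x z (j + 1) * t) ?_ ?_
        · have e := (ch_eqv x z (j + 1)).act t
          simp only [act_cons, act_nil] at e
          rw [ht]; exact e.symm
        · exact (R_chain_a r (j + 1)).b
      | eq ht =>
        subst ht
        rcases j with _ | j
        · exact StB.eq rfl
        · have hy1 : y * y = y * y := rfl
          have k2 : ch x y (j + 3) * (ch x y (j + 2) * y) = ch x y 2 * ch x y 2 := by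
            have e := (ch_eqv x y (j + 2)).act y
            simp only [act_cons, act_nil] at e
            rw [e, ld]; rfl
          have e1 : Le [ch x y 2 * x, ch x y 2 * y] [ch x y (j + 3), ch x y (j + 2) * y] :=
            ch_inc_le x y y (m := 2) (n := j + 2) (by omega)
          have e2 : Lt [ch x y 2, ch x y (j + 4)] [ch x y 2 * x, ch x y 2 * y] :=
            (ch_comp x y (j + 3)).shift [ch x y 2]
          refine StB.lt (ch_strict x y (m := 1) (n := j + 2) (by omega)) (ch x y (j + 2) * y)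
            ?_ ?_ (Or.inl (e2.trans_le e1))
          · rw [k2]
            exact m_le (ch_le x y (m := 1) (n := j + 2) (by omega))
          · rw [k2]
            have e3 : Le [ch x y (j + 4), ch x y 2] [ch x y (j + 4), ch x y (j + 3)] :=
              (Le.of_le (ch_le x y (m := 1) (n := j + 2) (by omega))).cons _
            have e4 : Le [ch x y (j + 4), ch x y 2] [x, y] :=
              e3.trans (Or.inr (ch_eqv x y (j + 3)))
            have e5 : Le [ch x y 2 * ch x y (j + 4), ch x y 2 * ch x y 2]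
              [ch x y 2 * x, ch x y 2 * y] := e4.map [ch x y 2]
            exact e5.trans e1
      | lt ht v h1 h2 =>
        have k2 : ch x z (j + 2) * (ch x z (j + 1) * v) = x * (z * v) := by
          have e := (ch_eqv x z (j + 1)).act v
          simpa only [act_cons, act_nil] using e
        have e1 : Le [x * z, x * v] [ch x z (j + 2), ch x z (j + 1) * v] :=
          ch_inc_le x z v (m := 1) (n := j + 1) (by omega)
        have e2 : Lt [x, y, z] [x * z, x * v] := h2.shift [x]
        have e3 : Eqv [x * y, x, z] [x, y, z] := (eqv_swap x y).append [z]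
        have e4 : Lt [x * y, ch x z (j + 3)] [x * y, x, z] := (ch_comp x z (j + 2)).cons _
        have k3 : x * (z * v) ≤ (x * y) * ch x z (j + 2) := by
          calc x * (z * v) ≤ x * (y * z) := m_le h1
            _ = (x * y) * (x * z) := ld _ _ _
            _ ≤ (x * y) * ch x z (j + 2) := m_le (ch_le x z (m := 1) (n := j + 1) (by omega))
        refine StB.lt ?_ (ch x z (j + 1) * v) ?_ ?_
          (Or.inl (((e4.trans_eqv e3).trans e2).trans_le e1))
        · exact lt_of_lt_of_le (m_lt _ _ _ ht) (ch_le x z (m := 1) (n := j + 1) (by omega))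
        · rw [k2]; exact k3
        · rw [k2]
          have f1 : Le [(x * y) * ch x z (j + 3), x * (z * v)]
              [(x * y) * ch x z (j + 3), (x * y) * ch x z (j + 2)] := (Le.of_le k3).cons _
          have f2 : Lt [(x * y) * ch x z (j + 3), (x * y) * ch x z (j + 2)]
              [(x * y) * ch x z (j + 3), x * y, ch x z (j + 2)] :=
            (mul_lt_comp (x * y) (ch x z (j + 2))).cons _
          have f3 : Eqv [(x * y) * ch x z (j + 3), x * y, ch x z (j + 2)]
              [x * y, ch x z (j + 3), ch x z (j + 2)] := (eqv_swap _ _).append _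
          have f4 : Eqv [x * y, ch x z (j + 3), ch x z (j + 2)] [x * y, x, z] :=
            (ch_eqv x z (j + 2)).cons _
          exact Or.inl (f1.trans_lt
            (((f2.trans_eqv (f3.trans (f4.trans e3))).trans e2).trans_le e1))
      | sep v h1 h2 =>
        have k2 : ch x z (j + 2) * (ch x z (j + 1) * v) = x * (z * v) := by
          have e := (ch_eqv x z (j + 1)).act v
          simpa only [act_cons, act_nil] using e
        have e1 : Le [x * z, x * v] [ch x z (j + 2), ch x z (j + 1) * v] :=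
          ch_inc_le x z v (m := 1) (n := j + 1) (by omega)
        refine StB.sep (ch x z (j + 1) * v) (lt_m _ _).le ?_ ?_
        · rw [k2]; exact m_lt _ _ _ h1
        · rw [k2]
          have f1 : Le [x * y, x * (z * v)] [x * z, x * v] := h2.map [x]
          exact f1.trans e1

theorem good_b {x y z : F} (hR : R x y z) (h : Good x y z) : Good x (y * z) y := by
  refine ⟨fun k => ?_, fun k => ?_⟩
  · rcases k with _ | j
    · exact StA.div z rfl hR
    · have h0 := h.B 0
      rw [zero_add, ch_one, ch_zero] at h0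
      cases h0 with
      | div t ht r =>
        subst ht
        have e : ∀ n, ch (y * t) (y * z) n = y * ch t z n := fun n => (mul_ch y t z n).symm
        refine StA.div (ch t z (j + 1)) (e _) ?_
        rw [e]
        exact (R_chain_b r (j + 1)).a
      | eq ht =>
        subst ht
        rcases j with _ | _ | j
        · exact StA.eq rfl
        · exact StA.div (x * z) rfl hR.e
        · refine StA.sep (x * z) ?_ ?_
          · exact ch_strict x (x * z) (m := 1) (n := j + 2) (by omega)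
          · have e1 : Le [ch x (x * z) (j + 3), ch x (x * z) 2]
                [ch x (x * z) (j + 3), ch x (x * z) (j + 2)] :=
              (Le.of_le (ch_le x (x * z) (m := 1) (n := j + 1) (by omega))).cons _
            exact e1.trans (Or.inr (ch_eqv x (x * z) (j + 2)))
      | lt ht v h1 h2 h3 =>
        rcases j with _ | _ | j
        · refine StA.lt ht v h1 ?_
          exact ((Lt.of_lt (lt_m y z)).cons x).trans_le h3
        · refine StA.sep v ?_ h2
          exact lt_of_le_of_lt h1 (m_lt _ _ _ (lt_m _ _))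
        · have k1 : y * v < ch x (y * z) 2 := lt_of_le_of_lt h1 (m_lt _ _ _ (lt_m _ _))
          refine StA.sep v (lt_of_lt_of_le k1 (ch_le x (y * z) (m := 1) (n := j + 2) (by omega))) ?_
          have e1 : Lt [ch x (y * z) (j + 3), y * v]
              [ch x (y * z) (j + 3), ch x (y * z) (j + 2)] :=
            (Lt.of_lt (lt_of_lt_of_le k1
              (ch_le x (y * z) (m := 1) (n := j + 1) (by omega)))).cons _
          exact Or.inl ((e1.trans_eqv (ch_eqv x (y * z) (j + 2))).trans_le h3)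
      | sep v h0 h1 h2 =>
        rcases j with _ | j
        · exact StA.sep v h1 h2
        · refine StA.sep v (lt_of_lt_of_le h1 (ch_le x (y * z) (m := 0) (n := j + 1) (by omega))) ?_
          have e1 : Lt [ch x (y * z) (j + 2), y * v]
              [ch x (y * z) (j + 2), ch x (y * z) (j + 1)] :=
            (Lt.of_lt (lt_of_lt_of_le h1
              (ch_le x (y * z) (m := 0) (n := j) (by omega)))).cons _
          have e2 : Le [x, y * z] [x, y * v] := (Le.of_le (m_le h0)).cons _
          exact Or.inl (((e1.trans_eqv (ch_eqv x (y * z) (j + 1))).trans_le e2).trans_le h2)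
  · rw [ch_shift, ch_shift]; exact h.B (k + 1)

theorem good_one : Good (1 : F) 1 1 := by
  have one_lt : ∀ n, (1 : F) < ch 1 1 (n + 2) := fun n =>
    lt_of_lt_of_le (lt_m 1 1) (ch_le 1 1 (m := 1) (n := n + 1) (by omega))
  refine ⟨fun k => ?_, fun k => ?_⟩
  · rcases k with _ | _ | _ | j
    · exact StA.eq rfl
    · exact StA.eq rfl
    · exact StA.div 1 rfl R.q
    · refine StA.sep 1 (ch_strict 1 1 (m := 1) (n := j + 2) (by omega)) ?_
      have e1 : Le [ch (1 : F) 1 (j + 3), ch 1 1 2] [ch 1 1 (j + 3), ch 1 1 (j + 2)] :=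
        (Le.of_le (ch_le 1 1 (m := 1) (n := j + 1) (by omega))).cons _
      exact e1.trans (Or.inr (ch_eqv 1 1 (j + 2)))
  · rcases k with _ | j
    · exact StB.eq rfl
    · have k2 : ch (1 : F) 1 (j + 2) * (ch 1 1 (j + 1) * 1) = 1 * (1 * 1) := by
        have e := (ch_eqv (1 : F) 1 (j + 1)).act 1
        simpa only [act_cons, act_nil] using e
      have e0 : Le [ch (1 : F) 1 2, ch 1 1 1 * 1] [ch 1 1 (j + 2), ch 1 1 (j + 1) * 1] :=
        ch_inc_le 1 1 1 (m := 1) (n := j + 1) (by omega)
      have e0' : Le [(1 : F) * 1, 1 * 1] [ch 1 1 (j + 2), ch 1 1 (j + 1) * 1] := e0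
      refine StB.lt (one_lt j) (ch 1 1 (j + 1) * 1) ?_ ?_ ?_
      · rw [k2]
        exact m_le (ch_le 1 1 (m := 1) (n := j + 1) (by omega))
      · rw [k2]
        have e1 : Le [ch (1 : F) 1 (j + 3), ch 1 1 2] [ch 1 1 (j + 3), ch 1 1 (j + 2)] :=
          (Le.of_le (ch_le 1 1 (m := 1) (n := j + 1) (by omega))).cons _
        have e2 : Le [ch (1 : F) 1 (j + 3), ch 1 1 2] [1, 1] :=
          e1.trans (Or.inr (ch_eqv 1 1 (j + 2)))
        have e3 : Le [1 * ch (1 : F) 1 (j + 3), 1 * ch 1 1 2] [1 * 1, 1 * 1] := e2.map [1]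
        exact e3.trans e0'
      · have e1 : Lt [1, ch (1 : F) 1 (j + 3)] [1 * 1, 1 * 1] := (ch_comp 1 1 (j + 2)).shift [1]
        exact Or.inl (e1.trans_le e0')

theorem good_q : Good (((1 : F) * 1) * 1) 1 1 := by
  have hq : Eqv [((1 : F) * 1) * 1, 1 * 1] [1, 1] := ch_eqv 1 1 2
  have hlt : (1 : F) * 1 < (1 * 1) * 1 := lt_m _ _
  refine ⟨fun k => ?_, fun k => ?_⟩
  · rcases k with _ | _ | j
    · exact StA.eq rfl
    · exact StA.sep 1 hlt (Or.inr hq)
    · have k1 : ∀ n, (1 : F) * 1 < ch ((1 * 1) * 1) 1 (n + 1) := fun n =>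
        lt_of_lt_of_le hlt (ch_le ((1 * 1) * 1) (1 : F) (m := 0) (n := n) (by omega))
      refine StA.sep 1 (k1 _) ?_
      have e1 : Lt [ch (((1 : F) * 1) * 1) 1 (j + 2), 1 * 1]
          [ch ((1 * 1) * 1) 1 (j + 2), ch ((1 * 1) * 1) 1 (j + 1)] := (Lt.of_lt (k1 j)).cons _
      have e2 : Lt [((1 : F) * 1) * 1, 1] [(1 * 1) * 1, 1 * 1] := (Lt.of_lt (lt_m _ _)).cons _
      exact Or.inl (((e1.trans_eqv (ch_eqv _ _ (j + 1))).trans e2).trans_eqv hq)
  · rcases k with _ | j
    · exact StB.sep 1 le_rfl hlt (Or.inr hq)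
    · have g1 := good_a R.one (good_one (F := F))
      have g2 := good_a R.one.a g1
      have h := g2.B j
      rw [ch_shift, ch_shift] at h
      exact h

theorem good_e {x z : F} (hR : R x x z) (h : Good x x z) :
    Good ((x * (x * z)) * x) x (x * z) := by
  have hxs : x < x * z := lt_m _ _
  obtain ⟨v, v1, v3⟩ : ∃ v, (x * z) * v ≤ x * (x * z) ∧ Le [x, (x * z) * x] [x * z, v] := by
    have h1 := h.B 1
    change StB x (x * z) x at h1
    cases h1 with
    | div t ht r =>
      have := lt_m (x * z) t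
      rw [← ht] at this
      exact absurd this (not_lt.2 hxs.le)
    | eq ht => exact absurd ht hxs.ne
    | lt ht v h1 h2 h3 => exact ⟨v, h1, h3⟩
    | sep v h0 h1 h2 =>
      have := (lt_m (x * z) v).trans h1
      exact absurd this (not_lt.2 hxs.le)
  have w1 : Lt [x, x * z] [x * z, v] :=
    ((Lt.of_lt (lt_m (x * z) x)).cons x).trans_le v3
  have hT : x * (x * z) < (x * (x * z)) * x := lt_m _ _
  have w2 : Eqv [(x * (x * z)) * x, x * (x * z)] [x, x * z] :=
    (eqv_swap _ _).trans (eqv_swap _ _)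
  refine ⟨fun k => ?_, fun k => ?_⟩
  · rcases k with _ | _ | j
    · exact StA.lt hxs v v1 w1
    · refine StA.sep v (lt_of_le_of_lt v1 hT) (Or.inl ?_)
      exact (((Le.of_le v1).cons _).trans_lt (w2.trans_lt w1))
    · have k1 : ∀ n, (x * z) * v < ch ((x * (x * z)) * x) x (n + 1) := fun n =>
        lt_of_lt_of_le (lt_of_le_of_lt v1 hT)
          (ch_le ((x * (x * z)) * x) x (m := 0) (n := n) (by omega))
      refine StA.sep v (k1 _) (Or.inl ?_)
      have e1 : Lt [ch ((x * (x * z)) * x) x (j + 2), (x * z) * v]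
          [ch ((x * (x * z)) * x) x (j + 2), ch ((x * (x * z)) * x) x (j + 1)] :=
        (Lt.of_lt (k1 j)).cons _
      have e2 : Lt [(x * (x * z)) * x, x] [(x * (x * z)) * x, x * (x * z)] :=
        (Lt.of_lt (lt_m _ _)).cons _
      exact (((e1.trans_eqv (ch_eqv _ _ (j + 1))).trans e2).trans_eqv w2).trans w1
  · rcases k with _ | j
    · exact StB.sep (x * z) le_rfl hT (Or.inr w2)
    · have g1 := good_b hR h
      have g2 := good_a hR.b g1
      have g3 := good_a hR.b.a g2
      have h3 := g3.B j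
      rw [ch_shift, ch_shift] at h3
      exact h3

theorem good_all {x y z : F} (h : R x y z) : Good x y z := by
  induction h with
  | one => exact good_one
  | q => exact good_q
  | a h ih => exact good_a h ih
  | b h ih => exact good_b h ih
  | e h ih => exact good_e h ih

/-- a separated pair is not divisible -/
theorem not_sep {B t v : F} (h1 : B * v < B * t) (h2 : Le [B * t, B * v] [B, v]) : False := by
  have h3 : v < t := lt_of_m_lt h1
  have h4 : B * (v * 1) ≤ B * t := m_le (sc _ _ h3)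
  have h5 : (B * t) * ((B * v) * 1) ≤ B * (v * 1) := by
    rcases h2 with h2 | h2
    · exact h2.act.le
    · have := h2.act 1
      simp only [act_cons, act_nil] at this
      exact this.le
  exact absurd (lt_of_lt_of_le (lt_m (B * t) ((B * v) * 1)) h5) (not_lt.2 h4)

theorem back_a {x y z : F} (h : R (x * y) x z) : R x y z := by
  have h0 := (good_all h).B 0
  rw [zero_add, ch_one, ch_zero] at h0
  cases h0 with
  | div t ht r => rw [cancel ht]; exact r
  | eq ht => exact absurd ht (lt_m x y).ne'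
  | lt ht v h1 h2 h3 => exact absurd ht (not_lt.2 (lt_m x y).le)
  | sep v h0 h1 h2 => exact (not_sep h1 h2).elim

theorem back_b {x y z : F} (h : R x (y * z) y) : R x y z := by
  have h0 := (good_all h).A 0
  rw [zero_add, ch_one, ch_zero] at h0
  cases h0 with
  | div t ht r => rw [cancel ht]; exact r
  | eq ht => exact absurd ht (lt_m y z).ne'
  | lt ht v h1 h2 => exact absurd ht (not_lt.2 (lt_m y z).le)
  | sep v h1 h2 => exact (not_sep h1 h2).elim

/-! ### The elements of the orbit with third entry `1` -/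

/-- the four classes -/
def Cls (x y : F) : Prop :=
  ∃ n, (x = ch 1 1 (n + 1) ∧ y = ch 1 1 n) ∨
    (x = ch ((1 * 1) * 1) 1 (n + 1) ∧ y = ch ((1 * 1) * 1) 1 n) ∨
    (x = ch 1 (1 * 1) (n + 1) ∧ y = ch 1 (1 * 1) n) ∨
    (x = ch (1 * 1) (1 * 1) (n + 1) ∧ y = ch (1 * 1) (1 * 1) n)

def Cls2 (x z : F) : Prop :=
  (x = 1 ∧ z = 1) ∨ (x = (1 * 1) * 1 ∧ z = 1) ∨
    (∃ j, x = 1 * ch 1 1 (j + 1) ∧ z = ch 1 1 j) ∨ (x = (1 * (1 * 1)) * 1 ∧ z = 1 * 1)

theorem Cls.a {x y : F} (h : Cls x y) : Cls (x * y) x := by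
  obtain ⟨n, ⟨rfl, rfl⟩ | ⟨rfl, rfl⟩ | ⟨rfl, rfl⟩ | ⟨rfl, rfl⟩⟩ := h
  · exact ⟨n + 1, Or.inl ⟨rfl, rfl⟩⟩
  · exact ⟨n + 1, Or.inr (Or.inl ⟨rfl, rfl⟩)⟩
  · exact ⟨n + 1, Or.inr (Or.inr (Or.inl ⟨rfl, rfl⟩))⟩
  · exact ⟨n + 1, Or.inr (Or.inr (Or.inr ⟨rfl, rfl⟩))⟩

theorem Cls2.b {x z : F} (h : Cls2 x z) : Cls x (1 * z) := by
  obtain ⟨rfl, rfl⟩ | ⟨rfl, rfl⟩ | ⟨j, rfl, rfl⟩ | ⟨rfl, rfl⟩ := h
  · exact ⟨0, Or.inr (Or.inr (Or.inl ⟨rfl, rfl⟩))⟩
  · exact ⟨2, Or.inl ⟨rfl, rfl⟩⟩
  · exact ⟨j, Or.inr (Or.inr (Or.inr ⟨mul_ch _ _ _ _, mul_ch _ _ _ _⟩))⟩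
  · exact ⟨2, Or.inr (Or.inr (Or.inl ⟨rfl, rfl⟩))⟩

theorem R_class {x y z : F} (h : R x y z) :
    (z = 1 → Cls x y) ∧ (y = 1 → Cls2 x z) ∧
      (x = 1 → ∃ j, y = ch 1 1 (j + 1) ∧ z = ch 1 1 j) := by
  induction h with
  | one =>
    exact ⟨fun _ => ⟨0, Or.inl ⟨rfl, rfl⟩⟩, fun _ => Or.inl ⟨rfl, rfl⟩, fun _ => ⟨0, rfl, rfl⟩⟩
  | q =>
    exact ⟨fun _ => ⟨0, Or.inr (Or.inl ⟨rfl, rfl⟩)⟩, fun _ => Or.inr (Or.inl ⟨rfl, rfl⟩),
      fun h => absurd h (ne_one _ _)⟩
  | @a x y z h ih =>
    refine ⟨fun hz => (ih.1 hz).a, fun hx => ?_, fun h => absurd h (ne_one _ _)⟩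
    obtain ⟨j, rfl, rfl⟩ := ih.2.2 hx
    subst hx
    exact Or.inr (Or.inr (Or.inl ⟨j, rfl, rfl⟩))
  | @b x y z h ih =>
    refine ⟨fun hy => ?_, fun h => absurd h (ne_one _ _), fun hx => ?_⟩
    · subst hy; exact (ih.2.1 rfl).b
    · obtain ⟨j, rfl, rfl⟩ := ih.2.2 hx
      exact ⟨j + 1, rfl, rfl⟩
  | @e x z h ih =>
    refine ⟨fun h => absurd h (ne_one _ _), fun hx => ?_, fun h => absurd h (ne_one _ _)⟩
    subst hx
    obtain ⟨j, h1, rfl⟩ := ih.2.2 rfl
    rcases j with _ | j
    · exact Or.inr (Or.inr (Or.inr ⟨rfl, rfl⟩))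
    · exact absurd h1.symm (ne_one _ _)

end OLD

end Pool.Agent.K7.H32.SB
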