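import Mathlib

/-!
# Ordered left self-distributive systems: words and the order on words

`F` is a linearly ordered set with a left self-distributive operation (written `*`) and a least
element (written `1`).  A word is a list of elements; it acts on `F` by iterated left
multiplication.
-/

set_option autoImplicit false

namespace Pool.Agent.K7.H32.SB

/-- A linearly ordered left self-distributive system with a least element. -/
class OLD (F : Type) extends LinearOrder F, Mul F, One F where
  ld : ∀ x y z : F, x * (y * z) = (x * y) * (x * z)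
  lt_m : ∀ x y : F, x < x * y
  m_lt : ∀ x y z : F, y < z → x * y < x * z
  sc : ∀ x y : F, x < y → x * 1 ≤ y
  one_le : ∀ x : F, 1 ≤ x

namespace OLD

variable {F : Type} [OLD F]

theorem m_le {x y z : F} (h : y ≤ z) : x * y ≤ x * z := by
  rcases h.lt_or_eq with h | rfl
  · exact (m_lt x y z h).le
  · exact le_rfl

theorem lt_of_m_lt {x y z : F} (h : x * y < x * z) : y < z := by
  by_contra hc
  exact absurd h (not_lt.2 (m_le (not_lt.1 hc)))

theorem cancel {x y z : F} (h : x * y = x * z) : y = z := by
  rcases lt_trichotomy y z with h1 | h1 | h1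
  · exact absurd h (m_lt x y z h1).ne
  · exact h1
  · exact absurd h (m_lt x z y h1).ne'

theorem ne_one (x y : F) : x * y ≠ 1 := by
  intro h
  have h1 := lt_m x y
  rw [h] at h1
  exact absurd h1 (not_lt.2 (one_le x))

/-- the action of a word -/
def act : List F → F → F
  | [], u => u
  | a :: w, u => a * act w u

@[simp] theorem act_nil (u : F) : act [] u = u := rfl
@[simp] theorem act_cons (a : F) (w : List F) (u : F) : act (a :: w) u = a * act w u := rfl

theorem act_append (v w : List F) (u : F) : act (v ++ w) u = act v (act w u) := by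
  induction v with
  | nil => rfl
  | cons a v ih => rw [List.cons_append, act_cons, ih, act_cons]

theorem act_mul (β : List F) (x y : F) : act β (x * y) = act β x * act β y := by
  induction β with
  | nil => rfl
  | cons a β ih => rw [act_cons, ih, ld, act_cons, act_cons]

theorem act_map (β w : List F) (u : F) : act (w.map (act β)) (act β u) = act β (act w u) := by
  induction w with
  | nil => rfl
  | cons a w ih => rw [List.map_cons, act_cons, ih, act_cons, act_mul]

theorem act_lt (β : List F) {u v : F} (h : u < v) : act β u < act β v := by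
  induction β with
  | nil => exact h
  | cons a β ih => exact m_lt _ _ _ ih

theorem act_le (β : List F) {u v : F} (h : u ≤ v) : act β u ≤ act β v := by
  rcases h.lt_or_eq with h | rfl
  · exact (act_lt β h).le
  · exact le_rfl

theorem map_act_map (β γ w : List F) : (w.map (act γ)).map (act β) = w.map (act (β ++ γ)) := by
  rw [List.map_map]
  congr 1
  funext u
  rw [act_append]; rfl

/-- the order on words -/
def Lt (w w' : List F) : Prop := ∀ β : List F, act β (act w 1) < act (w'.map (act β)) 1

/-- the equivalence of words -/
def Eqv (w w' : List F) : Prop := ∀ (β : List F) (u : F),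
  act (w.map (act β)) u = act (w'.map (act β)) u

/-- the non-strict order -/
def Le (w w' : List F) : Prop := Lt w w' ∨ Eqv w w'

theorem Eqv.refl (w : List F) : Eqv w w := fun _ _ => rfl
theorem Eqv.symm {w w' : List F} (h : Eqv w w') : Eqv w' w := fun β u => (h β u).symm
theorem Eqv.trans {w w' w'' : List F} (h : Eqv w w') (h' : Eqv w' w'') : Eqv w w'' :=
  fun β u => (h β u).trans (h' β u)

theorem Eqv.act {w w' : List F} (h : Eqv w w') (u : F) : act w u = OLD.act w' u := by
  have h1 := h [] u
  have e : ∀ v : List F, v.map (OLD.act []) = v := fun v => by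
    have : (OLD.act [] : F → F) = id := rfl
    rw [this, List.map_id]
  rwa [e, e] at h1

theorem Eqv.cons {w w' : List F} (a : F) (h : Eqv w w') : Eqv (a :: w) (a :: w') := by
  intro β u
  rw [List.map_cons, List.map_cons, act_cons, act_cons, h β u]

theorem Eqv.append {w w' : List F} (h : Eqv w w') (v : List F) : Eqv (w ++ v) (w' ++ v) := by
  intro β u
  rw [List.map_append, List.map_append, act_append, act_append, h β]

theorem Eqv.map {w w' : List F} (h : Eqv w w') (γ : List F) :
    Eqv (w.map (OLD.act γ)) (w'.map (OLD.act γ)) := by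
  intro β u
  rw [map_act_map, map_act_map, h]

theorem eqv_swap (a b : F) : Eqv [a * b, a] [a, b] := by
  intro β u
  simp only [List.map_cons, List.map_nil, act_cons, act_nil, act_mul]
  rw [← ld]

theorem Lt.act {w w' : List F} (h : Lt w w') : OLD.act w 1 < OLD.act w' 1 := by
  have h1 := h []
  have e : ∀ v : List F, v.map (OLD.act []) = v := fun v => by
    have : (OLD.act [] : F → F) = id := rfl
    rw [this, List.map_id]
  rwa [e] at h1

theorem Lt.trans {w w' w'' : List F} (h : Lt w w') (h' : Lt w' w'') : Lt w w'' := by
  intro β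
  refine (h β).trans (lt_of_le_of_lt ?_ (h' β))
  rw [← act_map]
  exact act_le _ (act_le β (one_le _) |>.trans' (one_le _))

theorem Lt.trans_eqv {w w' w'' : List F} (h : Lt w w') (h' : Eqv w' w'') : Lt w w'' := by
  intro β
  rw [← h' β 1]
  exact h β

theorem Eqv.trans_lt {w w' w'' : List F} (h : Eqv w w') (h' : Lt w' w'') : Lt w w'' := by
  intro β
  rw [h.act]
  exact h' β

theorem Le.refl (w : List F) : Le w w := Or.inr (Eqv.refl w)

theorem Lt.trans_le {w w' w'' : List F} (h : Lt w w') (h' : Le w' w'') : Lt w w'' := by
  rcases h' with h' | h'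
  · exact h.trans h'
  · exact h.trans_eqv h'

theorem Le.trans_lt {w w' w'' : List F} (h : Le w w') (h' : Lt w' w'') : Lt w w'' := by
  rcases h with h | h
  · exact h.trans h'
  · exact h.trans_lt h'

theorem Le.trans {w w' w'' : List F} (h : Le w w') (h' : Le w' w'') : Le w w'' := by
  rcases h with h | h
  · exact Or.inl (h.trans_le h')
  · rcases h' with h' | h'
    · exact Or.inl (h.trans_lt h')
    · exact Or.inr (h.trans h')

theorem Lt.cons {w w' : List F} (a : F) (h : Lt w w') : Lt (a :: w) (a :: w') := by
  intro β
  rw [List.map_cons, act_cons, act_cons, act_mul]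
  exact m_lt _ _ _ (h β)

theorem Le.cons {w w' : List F} (a : F) (h : Le w w') : Le (a :: w) (a :: w') :=
  h.imp (fun h => h.cons a) (fun h => h.cons a)

theorem Lt.of_lt {b c : F} (h : b < c) : Lt [b] [c] := by
  intro β
  simp only [List.map_cons, List.map_nil, act_cons, act_nil]
  exact lt_of_le_of_lt (act_le β (sc _ _ h)) (lt_m _ _)

theorem Le.of_le {b c : F} (h : b ≤ c) : Le [b] [c] := by
  rcases h.lt_or_eq with h | rfl
  · exact Or.inl (Lt.of_lt h)
  · exact Le.refl _

/-- if `w < w'` then `γ ∘ w < γ ∧ w'` -/
theorem Lt.shift {w w' : List F} (h : Lt w w') (γ : List F) :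
    Lt (γ ++ w) (w'.map (OLD.act γ)) := by
  intro β
  rw [map_act_map, act_append, ← act_append β γ]
  exact h (β ++ γ)

theorem Lt.map {w w' : List F} (h : Lt w w') (γ : List F) :
    Lt (w.map (OLD.act γ)) (w'.map (OLD.act γ)) := by
  intro β
  refine lt_of_le_of_lt ?_ (h.shift γ β)
  rw [act_append, ← act_map γ w]
  exact act_le β (act_le _ (one_le _))

theorem Le.map {w w' : List F} (h : Le w w') (γ : List F) :
    Le (w.map (OLD.act γ)) (w'.map (OLD.act γ)) :=
  h.imp (fun h => h.map γ) (fun h => h.map γ)

/-- `w < w ∘ b` -/
theorem lt_append (w : List F) (b : F) : Lt w (w ++ [b]) := by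
  intro β
  rw [List.map_append, act_append, ← act_map]
  refine act_lt _ ?_
  simp only [List.map_cons, List.map_nil, act_cons, act_nil]
  exact lt_of_le_of_lt (act_le β (one_le b)) (lt_m _ _)

/-- `a ∧ b < a ∘ b` -/
theorem mul_lt_comp (a b : F) : Lt [a * b] [a, b] :=
  (lt_append [a * b] a).trans_eqv (eqv_swap a b)

end OLD

end Pool.Agent.K7.H32.SB
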