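import Pool.Agent.K7.H32.SB.Dyn
import Pool.Agent.K7.H32.SB.Cmp
import Pool.Agent.K7.H32.SB.LDR
import Pool.Agent.K7.H32.SB.Faith

/-!
# Special braids form an ordered left self-distributive system
-/

set_option autoImplicit false

namespace Pool.Agent.K7.H32.SB

open Dyn

theorem Inc_op (x z : Binf) : Inc (sh z * s 0 * (sh x)⁻¹) := by
  rw [← map_inv]
  exact (Inc_s.sh_mul z).mul_sh _

theorem op_eq (x z : Binf) : op x z = x * (sh z * s 0 * (sh x)⁻¹) := by
  rw [op]; group

theorem Dv.inc {x y : Binf} (h : Dv x y) : ∃ w, y = x * w ∧ Inc w := by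
  induction h with
  | base _ => exact ⟨_, op_eq _ _, Inc_op _ _⟩
  | @step y z _ _ ih =>
    obtain ⟨w, rfl, hw⟩ := ih
    exact ⟨w * (sh z * s 0 * (sh (x * w))⁻¹), by rw [op_eq, mul_assoc], hw.mul (Inc_op _ _)⟩

theorem Dv.trans {x y z : Binf} (h : Dv x y) (h' : Dv y z) : Dv x z := by
  induction h' with
  | base hz => exact h.step hz
  | step _ hz ih => exact ih.step hz

theorem Dv.irrefl (x : Binf) : ¬ Dv x x := by
  intro h
  obtain ⟨w, hw, hi⟩ := h.inc
  have h1 : w = 1 := by
    have : x * 1 = x * w := by rw [mul_one]; exact hw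
    exact (mul_left_cancel this).symm
  apply hi.ne 1
  rw [h1, map_one sh]

theorem Dv.op_left {x y z : Binf} (hx : Special x) (h : Dv y z) : Dv (op x y) (op x z) := by
  induction h with
  | @base z hz =>
    rw [op_ld]
    exact Dv.base (Special.op hx hz)
  | @step y' z _ hz ih =>
    rw [op_ld]
    exact ih.step (Special.op hx hz)

/-- the injectivity of the decomposition -/
theorem unique {x x' g g' : Binf} (hx : Special x) (hx' : Special x')
    (h : Dy (x * sh g) = Dy (x' * sh g')) : x = x' ∧ Dy g = Dy g' := by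
  have key : ∀ {x x' g g' : Binf}, Dv x x' → Dy (x * sh g) = Dy (x' * sh g') → False := by
    intro x x' g g' h1 h2
    obtain ⟨w, rfl, hw⟩ := h1.inc
    rw [mul_assoc, map_mul, map_mul] at h2
    have h3 := mul_left_cancel h2
    exact (hw.mul_sh g').ne g h3.symm
  rcases comparable hx hx' with h1 | h1 | h1
  · refine ⟨h1, ?_⟩
    subst h1
    rw [map_mul, map_mul] at h
    have h2 := mul_left_cancel h
    rw [Dy_sh, Dy_sh] at h2
    exact shE_injective h2
  · exact (key h1 h).elim
  · exact (key h1 h.symm).elim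

/-- the special braids -/
structure Sp : Type where
  v : Binf
  h : Special v

theorem Sp.ext' {x y : Sp} (h : x.v = y.v) : x = y := by
  cases x; cases y; cases h; rfl

instance : Mul Sp := ⟨fun x y => ⟨op x.v y.v, Special.op x.h y.h⟩⟩
instance : One Sp := ⟨⟨1, Special.one⟩⟩

theorem Sp.mul_v (x y : Sp) : (x * y).v = op x.v y.v := rfl
theorem Sp.one_v : (1 : Sp).v = 1 := rfl

noncomputable instance : LinearOrder Sp where
  le x y := x = y ∨ Dv x.v y.v
  lt x y := Dv x.v y.v
  le_refl x := Or.inl rfl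
  le_trans x y z := by
    rintro (rfl | h) (rfl | h')
    · exact Or.inl rfl
    · exact Or.inr h'
    · exact Or.inr h
    · exact Or.inr (h.trans h')
  lt_iff_le_not_ge x y := by
    constructor
    · intro h
      refine ⟨Or.inr h, ?_⟩
      rintro (rfl | h')
      · exact Dv.irrefl _ h
      · exact Dv.irrefl _ (h.trans h')
    · rintro ⟨rfl | h, h'⟩
      · exact absurd (Or.inl rfl) h'
      · exact h
  le_antisymm x y := by
    rintro (rfl | h) (h' | h')
    · rfl
    · rfl
    · exact h'.symm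
    · exact absurd (h.trans h') (Dv.irrefl _)
  le_total x y := by
    rcases comparable x.h y.h with h | h | h
    · exact Or.inl (Or.inl (Sp.ext' h))
    · exact Or.inl (Or.inr h)
    · exact Or.inr (Or.inr h)
  toDecidableLE := Classical.decRel _

theorem Sp.lt_def (x y : Sp) : x < y ↔ Dv x.v y.v := Iff.rfl
theorem Sp.le_def (x y : Sp) : x ≤ y ↔ x = y ∨ Dv x.v y.v := Iff.rfl

theorem Sp.one_le (x : Sp) : 1 ≤ x := by
  obtain ⟨x, hx⟩ := x
  induction hx with
  | one => exact Or.inl rfl
  | @op a b ha hb iha _ =>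
    right
    rcases iha with h | h
    · have h1 : (1 : Binf) = a := congrArg Sp.v h
      change Dv 1 (op a b)
      rw [h1]
      exact Dv.base hb
    · exact Dv.step h hb

theorem Dv.succ_le {x y : Binf} (hx : Special x) (h : Dv x y) : op x 1 = y ∨ Dv (op x 1) y := by
  induction h with
  | @base z hz =>
    rcases Sp.one_le ⟨z, hz⟩ with h | h
    · left
      have h1 : (1 : Binf) = z := congrArg Sp.v h
      rw [← h1]
    · right; exact Dv.op_left hx h
  | @step y z _ hz ih =>
    right
    rcases ih with ih | ih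
    · rw [ih]; exact Dv.base hz
    · exact ih.step hz

noncomputable instance : OLD Sp where
  ld x y z := Sp.ext' (op_ld _ _ _)
  lt_m x y := Dv.base y.h
  m_lt x _ _ h := Dv.op_left x.h h
  sc x y h := by
    rcases Dv.succ_le x.h h with h | h
    · exact Or.inl (Sp.ext' h)
    · exact Or.inr h
  one_le := Sp.one_le

/-! ### Triples -/

/-- the product of a triple -/
def pr3 (x y z : Sp) : Binf := x.v * sh (y.v * sh z.v)

theorem pr3_a (x y z : Sp) : pr3 (x * y) x z = pr3 x y z * s 0 := by
  have h : s 0 * sh (sh z.v) = sh (sh z.v) * s 0 := comm0 _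
  calc pr3 (x * y) x z = x.v * sh y.v * (s 0 * sh (sh z.v)) := by
        simp only [pr3, Sp.mul_v, op, map_mul]; group
    _ = pr3 x y z * s 0 := by rw [h]; simp only [pr3, map_mul]; group

theorem pr3_b (x y z : Sp) : pr3 x (y * z) y = pr3 x y z * s 1 := by
  simp only [pr3, Sp.mul_v, op, map_mul, map_inv, sh_s]; group

theorem pr3_inj {x y z x' y' z' : Sp} (h : pr3 x y z = pr3 x' y' z') :
    x = x' ∧ y = y' ∧ z = z' := by
  obtain ⟨h1, h2⟩ := unique x.h x'.h (congrArg Dy h)
  obtain ⟨h3, h4⟩ := unique y.h y'.h h2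
  have h5 : Dy (z.v * sh 1) = Dy (z'.v * sh 1) := by rw [map_one, mul_one, mul_one, h4]
  obtain ⟨h6, -⟩ := unique z.h z'.h h5
  exact ⟨Sp.ext' h1, Sp.ext' h3, Sp.ext' h6⟩

/-- positive words in two letters -/
def wv : List Bool → Binf
  | [] => 1
  | false :: q => s 0 * wv q
  | true :: q => s 1 * wv q

theorem wv_append (p q : List Bool) : wv (p ++ q) = wv p * wv q := by
  induction p with
  | nil => simp [wv]
  | cons b p ih => cases b <;> simp [wv, ih, mul_assoc]

theorem run (q : List Bool) : ∀ x y z : Sp, ∃ x' y' z' : Sp,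
    pr3 x' y' z' = pr3 x y z * wv q ∧ (OLD.R x y z ↔ OLD.R x' y' z') := by
  induction q with
  | nil => intro x y z; exact ⟨x, y, z, by simp [wv], Iff.rfl⟩
  | cons b q ih =>
    intro x y z
    cases b with
    | false =>
      obtain ⟨x', y', z', h1, h2⟩ := ih (x * y) x z
      refine ⟨x', y', z', by rw [h1, pr3_a, wv, mul_assoc], ?_⟩
      rw [← h2]
      exact ⟨OLD.R.a, OLD.back_a⟩
    | true =>
      obtain ⟨x', y', z', h1, h2⟩ := ih x (y * z) y
      refine ⟨x', y', z', by rw [h1, pr3_b, wv, mul_assoc], ?_⟩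
      rw [← h2]
      exact ⟨OLD.R.b, OLD.back_b⟩

/-! ### Positive multiples of the central element -/

theorem C3_wv : C3 = wv [false, true, false, false, true, false] := by
  rw [C3, X3, ← br]; simp only [wv, mul_one]; group

theorem C3_pow_wv (m : ℕ) : ∃ q, C3 ^ m = wv q := by
  induction m with
  | zero => exact ⟨[], by simp [wv]⟩
  | succ m ih =>
    obtain ⟨q, hq⟩ := ih
    exact ⟨q ++ [false, true, false, false, true, false], by
      rw [pow_succ, hq, wv_append, ← C3_wv]⟩

theorem C3_wv' : C3 = wv [true, false, true, true, false, true] := by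
  rw [C3, X3]; simp only [wv, mul_one]; group

theorem pos_mul {g : Binf} (hg : g ∈ B 3) : ∃ (q : List Bool) (m : ℕ), g * wv q = C3 ^ m := by
  have hc : ∀ (h : Binf) (q : List Bool) (m : ℕ), Commute C3 h → h * wv q = C3 ^ m →
      h * (C3 * wv q) = C3 ^ (m + 1) := by
    intro h q m hcm hq
    rw [← mul_assoc, ← hcm.eq, mul_assoc, hq, pow_succ']
  have hcomm : ∀ h ∈ B 3, Commute C3 h := by
    intro h hh
    unfold B at hh
    induction hh using Subgroup.closure_induction with
    | mem x hx =>
      obtain ⟨i, hi, rfl⟩ := hx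
      obtain h0 | h0 : i = 0 ∨ i = 1 := by omega
      · subst h0; exact C3_s0
      · subst h0; exact C3_s1
    | one => exact Commute.one_right _
    | mul x y _ _ hx hy => exact hx.mul_right hy
    | inv x _ hx => exact hx.inv_right
  have hg' := hg
  unfold B at hg
  induction hg using Subgroup.closure_induction_right with
  | one => exact ⟨[], 0, by simp [wv]⟩
  | mul_right x hx y hy ih =>
    obtain ⟨i, hi, rfl⟩ := hy
    obtain ⟨q, m, hq⟩ := ih hx
    obtain h0 | h0 : i = 0 ∨ i = 1 := by omega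
    · subst h0
      refine ⟨[true, false, false, true, false] ++ q, m + 1, ?_⟩
      rw [← hc x q m (hcomm x hx) hq, wv_append]
      conv_rhs => rw [C3_wv]
      simp only [wv, mul_one]; group
    · subst h0
      refine ⟨[false, true, true, false, true] ++ q, m + 1, ?_⟩
      rw [← hc x q m (hcomm x hx) hq, wv_append]
      conv_rhs => rw [C3_wv']
      simp only [wv, mul_one]; group
  | mul_inv_cancel x hx y hy ih =>
    obtain ⟨i, hi, rfl⟩ := hy
    obtain ⟨q, m, hq⟩ := ih hx
    obtain h0 | h0 : i = 0 ∨ i = 1 := by omega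
    · subst h0
      exact ⟨false :: q, m, by rw [wv, mul_assoc, inv_mul_cancel_left, hq]⟩
    · subst h0
      exact ⟨true :: q, m, by rw [wv, mul_assoc, inv_mul_cancel_left, hq]⟩

/-- a product `x · sh(y)` in the three-strand group comes from the orbit -/
theorem R_of_mem {x y : Sp} (h : x.v * sh y.v ∈ B 3) : OLD.R x y 1 := by
  obtain ⟨q, m, hq⟩ := pos_mul h
  obtain ⟨q', hq'⟩ := C3_pow_wv m
  obtain ⟨a, b, c, h1, h2⟩ := run q x y 1
  obtain ⟨a', b', c', h3, h4⟩ := run q' 1 1 1
  have e1 : pr3 x y 1 = x.v * sh y.v := by simp [pr3, Sp.one_v]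
  have e2 : pr3 1 1 1 = 1 := by simp [pr3, Sp.one_v]
  rw [e1, hq] at h1
  rw [e2, one_mul, ← hq'] at h3
  obtain ⟨rfl, rfl, rfl⟩ := pr3_inj (h1.trans h3.symm)
  exact h2.2 (h4.1 OLD.R.one)

theorem Cls_of_mem {x y : Sp} (h : x.v * sh y.v ∈ B 3) : OLD.Cls x y :=
  (OLD.R_class (R_of_mem h)).1 rfl

end Pool.Agent.K7.H32.SB
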